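import Pool.Agent.WL.Step
import Pool.Agent.WD.Lift

/-!
# WL/Core: chains of partitions, and the lift to multisets of bases

PROOF. `core`: copy `WD/Core.lean` (`core_isPart`, `core_isPartn` are private there, copy them). If
`P 0 ≠ Q 0`, `step` gives `A₀, B', A', l`; the chain `P → Fin.cons (P 0) A₀ → Fin.cons B' A'`: the first
step shares the base number `0`, the second one the base number `l.succ`.
`shareConn_of_S1`: copy `shareConn_of_rank` of `WD/Lift.lean` with `core` instead of `WD.core`
(`exists_lift`, `comap_base_iff`, `content_of_union` are there); `m' = q + 1 > d`, so `q ≥ d`,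
`N.eRank = M.eRank ≤ m`.
-/

set_option autoImplicit false

namespace Pool.Agent.WL

open Set Pool.Agent.WD

section CoreSection

variable {α : Type*} {M : Matroid α}

private theorem core_isPart {q : ℕ} {S : Set α} {P : Fin (q + 1) → Set α} (hP : IsPartn M S P) :
    IsPart M S (P 0) (fun l : Fin q => P l.succ) := by
  refine ⟨hP.1.1 0, ⟨fun l => hP.1.1 _, ?_⟩, ?_, ?_⟩
  · intro i j hij
    exact hP.1.2 (fun h => hij (Fin.succ_injective _ h))
  · intro l
    exact hP.1.2 (Fin.succ_ne_zero l).symm
  · rw [← hP.2]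
    ext x
    simp only [mem_union, mem_iUnion]
    constructor
    · rintro (h | ⟨l, h⟩)
      · exact ⟨0, h⟩
      · exact ⟨_, h⟩
    · rintro ⟨k, h⟩
      rcases Fin.eq_zero_or_eq_succ k with rfl | ⟨l, rfl⟩
      · exact Or.inl h
      · exact Or.inr ⟨l, h⟩

private theorem core_isPartn {q : ℕ} {S B : Set α} {A : Fin q → Set α} (h : IsPart M S B A) :
    IsPartn M S (Fin.cons B A : Fin (q + 1) → Set α) := by
  obtain ⟨h1, h2, h3, h4⟩ := h
  refine ⟨⟨?_, ?_⟩, ?_⟩
  · intro l
    rcases Fin.eq_zero_or_eq_succ l with rfl | ⟨l, rfl⟩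
    · simpa using h1
    · simpa using h2.1 l
  · intro i j hij
    rcases Fin.eq_zero_or_eq_succ i with rfl | ⟨i, rfl⟩
    · rcases Fin.eq_zero_or_eq_succ j with rfl | ⟨j, rfl⟩
      · exact absurd rfl hij
      · simpa [Function.onFun] using h3 j
    · rcases Fin.eq_zero_or_eq_succ j with rfl | ⟨j, rfl⟩
      · simpa [Function.onFun] using (h3 i).symm
      · have hne : i ≠ j := fun h => hij (by rw [h])
        simpa [Function.onFun] using h2.2 hne
  · rw [← h4]
    ext x
    simp only [mem_union, mem_iUnion]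
    constructor
    · rintro ⟨k, h⟩
      rcases Fin.eq_zero_or_eq_succ k with rfl | ⟨l, rfl⟩
      · exact Or.inl (by simpa using h)
      · exact Or.inr ⟨l, by simpa using h⟩
    · rintro (h | ⟨l, h⟩)
      · exact ⟨0, by simpa using h⟩
      · exact ⟨l.succ, by simpa using h⟩

end CoreSection

theorem core {α : Type*} {M : Matroid α} [M.RankFinite] {q m : ℕ} (hq : 0 < q) (h : S1 α q m)
    (hM : M.eRank ≤ (m : ℕ∞)) {S : Set α} (P Q : Fin (q + 1) → Set α) (hP : IsPartn M S P)
    (hQ : IsPartn M S Q) : Relation.ReflTransGen (Share M S) P Q := by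
  induction hn : (P 0 \ Q 0).ncard using Nat.strong_induction_on generalizing P with
  | _ n ih =>
    by_cases h0 : P 0 = Q 0
    · exact Relation.ReflTransGen.single ⟨hP, hQ, 0, 0, h0⟩
    · obtain ⟨A₀, B', A', l, hP0, hP', hl, hlt⟩ :=
        step hq h hM (core_isPart hP) (core_isPart hQ) h0
      have hP0' := core_isPartn hP0
      have hP'' := core_isPartn hP'
      have h1 : Share M S P (Fin.cons (P 0) A₀ : Fin (q + 1) → Set α) :=
        ⟨hP, hP0', 0, 0, by simp⟩
      have h2 : Share M S (Fin.cons (P 0) A₀ : Fin (q + 1) → Set α)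
          (Fin.cons B' A' : Fin (q + 1) → Set α) :=
        ⟨hP0', hP'', l.succ, l.succ, by simp [hl]⟩
      refine Relation.ReflTransGen.head h1 (Relation.ReflTransGen.head h2 (ih _ ?_ _ hP'' rfl))
      rw [← hn]
      simpa using hlt

section LiftSection

open Finset

theorem shareConn_of_S1 {α : Type*} [DecidableEq α] {M : Matroid α} [M.RankFinite] {d m : ℕ}
    (hd : 0 < d) (h : ∀ q, d ≤ q → S1 (α × ℕ) q m) (hM : M.eRank ≤ (m : ℕ∞)) :
    ShareConn (fun B : Finset α => M.IsBase (B : Set α)) d := by
  intro m' hm B D hB hD hc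
  obtain ⟨q, rfl⟩ : ∃ q, m' = q + 1 := ⟨m' - 1, by omega⟩
  have hdq : d ≤ q := by omega
  obtain ⟨B', b1, b2, b3, b4⟩ := exists_lift B
  obtain ⟨D', d1, d2, d3, d4⟩ := exists_lift D
  set N := M.comap (Prod.fst : α × ℕ → α) with hN
  have hNr : N.eRank ≤ (m : ℕ∞) := by
    have h1 : N.eRank = M.eRank := by
      rw [Matroid.eRank_def, Matroid.eRank_def, hN, Matroid.eRk_comap, Matroid.comap_ground_eq,
        Set.image_preimage_eq _ Prod.fst_surjective]
    rw [h1]
    exact hM
  set S : Set (α × ℕ) := ⋃ k, (B' k : Set (α × ℕ)) with hS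
  have hPB : IsPartn N S (fun k => (B' k : Set (α × ℕ))) := by
    refine ⟨⟨?_, ?_⟩, rfl⟩
    · intro k
      rw [hN, comap_base_iff, ← coe_image, b1]
      exact ⟨hB k, b2 k⟩
    · intro i j hij
      exact disjoint_coe.2 (b3 hij)
  have hPD : IsPartn N S (fun k => (D' k : Set (α × ℕ))) := by
    refine ⟨⟨?_, ?_⟩, ?_⟩
    · intro k
      rw [hN, comap_base_iff, ← coe_image, d1]
      exact ⟨hD k, d2 k⟩
    · intro i j hij
      exact disjoint_coe.2 (d3 hij)
    · ext ⟨z, n⟩
      rw [hS, Set.mem_iUnion, Set.mem_iUnion]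
      simp only [mem_coe]
      rw [b4, d4, hc z]
  have key : ∀ R : Fin (q + 1) → Set (α × ℕ),
      Relation.ReflTransGen (Share N S) (fun k => (B' k : Set (α × ℕ))) R →
      IsPartn N S R ∧ ∃ R' : Fin (q + 1) → Finset (α × ℕ), (∀ k, (R' k : Set (α × ℕ)) = R k) ∧
        Relation.ReflTransGen (ShareStep (fun B : Finset α => M.IsBase (B : Set α))) B
          (fun k => (R' k).image Prod.fst) := by
    intro R hR
    induction hR with
    | refl =>
      refine ⟨hPB, B', fun k => rfl, ?_⟩
      have : (fun k => (B' k).image Prod.fst) = B := funext b1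
      rw [this]
    | @tail R R1 _ hst ih =>
      obtain ⟨hPR, R', r1, r2⟩ := ih
      obtain ⟨-, hP1, i, j, hij⟩ := hst
      have hfin : ∀ k, (R1 k).Finite := fun k => (hP1.1.1 k).finite
      refine ⟨hP1, fun k => (hfin k).toFinset, fun k => (hfin k).coe_toFinset, r2.tail ?_⟩
      have q1 : ∀ k, M.IsBase (((R' k).image Prod.fst : Finset α) : Set α) ∧
          Set.InjOn Prod.fst (R' k : Set (α × ℕ)) := by
        intro k
        have h1 := hPR.1.1 k
        rw [← r1 k, hN, comap_base_iff, ← coe_image] at h1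
        exact h1
      have q2 : ∀ k, M.IsBase (((hfin k).toFinset.image Prod.fst : Finset α) : Set α) ∧
          Set.InjOn Prod.fst ((hfin k).toFinset : Set (α × ℕ)) := by
        intro k
        have h1 := hP1.1.1 k
        rw [← (hfin k).coe_toFinset, hN, comap_base_iff, ← coe_image] at h1
        exact h1
      refine ⟨fun k => (q1 k).1, fun k => (q2 k).1, ?_, i, j, ?_⟩
      · apply content_of_union (fun k => (q1 k).2) (fun k => (q2 k).2)
        · intro a b hab
          have h1 := hPR.1.2 hab
          change Disjoint (R a) (R b) at h1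
          rw [← r1 a, ← r1 b, disjoint_coe] at h1
          exact h1
        · intro a b hab
          have h1 := hP1.1.2 hab
          change Disjoint (R1 a) (R1 b) at h1
          rw [← (hfin a).coe_toFinset, ← (hfin b).coe_toFinset, disjoint_coe] at h1
          exact h1
        · intro z
          have h1 : z ∈ S ↔ ∃ k, z ∈ R' k := by
            rw [← hPR.2, Set.mem_iUnion]
            simp only [← r1, mem_coe]
          have h2 : z ∈ S ↔ ∃ k, z ∈ (hfin k).toFinset := by
            rw [← hP1.2, Set.mem_iUnion]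
            simp only [Set.Finite.mem_toFinset]
          rw [← h1, ← h2]
      · change (R' i).image Prod.fst = (hfin j).toFinset.image Prod.fst
        congr 1
        apply coe_injective
        rw [r1 i, (hfin j).coe_toFinset]
        exact hij
  obtain ⟨-, R', r1, r2⟩ := key _ (core (lt_of_lt_of_le hd hdq) (h q hdq) hNr _ _ hPB hPD)
  have h1 : R' = D' := by
    funext k
    exact coe_injective (r1 k)
  rw [h1] at r2
  have h2 : (fun k => (D' k).image Prod.fst) = D := funext d1
  rw [h2] at r2
  exact r2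

end LiftSection

end Pool.Agent.WL
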