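import Pool.Agent.WD.TightOps

/-!
# WL: the toric ideal of a matroid of rank `r` is generated in degree `O(log r)`
(problem MP_e6151a_ag, helper23; builds on the folder `WD`)

Definitions.  `Reach M A J x y`: `y` can be reached from `x` in the exchange digraph of the
disjoint bases `A l`, `l ∈ J`; in terms of tight flats.  `S1 α p m`: in every matroid of rank at
most `m` and every family of `p` disjoint bases, if `y` is reachable from `x` by all bases, then
after distributing the elements of the bases in another way `y` is reachable from `x`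
by all bases but one.
-/

set_option autoImplicit false

namespace Pool.Agent.WL

open Set Pool.Agent.WD

/-- `y` is reachable from `x` by the bases `A l`, `l ∈ J`: it lies in one of them, and in every
`J`-tight flat which contains `x`. -/
def Reach {α ι : Type*} (M : Matroid α) (A : ι → Set α) (J : Set ι) (x y : α) : Prop :=
  (∃ l ∈ J, y ∈ A l) ∧ ∀ F, Tight M A J F → x ∈ F → y ∈ F

/-- The property (S1) for `p` bases in rank at most `m`. -/
def S1 (α : Type*) (p m : ℕ) : Prop :=
  ∀ (M : Matroid α) (A : Fin p → Set α) (x y : α), M.eRank ≤ (m : ℕ∞) → IsFam M A → x ∈ M.E →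
    (∀ l, x ∉ A l) → Reach M A univ x y →
    ∃ (A' : Fin p → Set α) (k : Fin p), IsFam M A' ∧ (⋃ l, A' l) = (⋃ l, A l) ∧
      Reach M A' {k}ᶜ x y

variable {α ι : Type*} {M : Matroid α} {A : ι → Set α} {J J' : Set ι}

theorem tight_mono {F : Set α} (h : Tight M A J F) (hJ : J' ⊆ J) : Tight M A J' F :=
  ⟨h.1, fun l hl => h.2 l (hJ hl)⟩

theorem Reach.mono {x y : α} (h : Reach M A J x y) (hJ : J ⊆ J') : Reach M A J' x y :=
  ⟨h.1.imp fun _ hl => ⟨hJ hl.1, hl.2⟩, fun F hF hx => h.2 F (tight_mono hF hJ) hx⟩

theorem S1.mono {p m m' : ℕ} (h : S1 α p m) (hm : m' ≤ m) : S1 α p m' :=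
  fun M A x y hM hA hx hxA hr =>
    h M A x y (hM.trans (by exact_mod_cast hm)) hA hx hxA hr

/-- A reachable pair: `x` is not a loop. -/
theorem Reach.notMem_loops {x y : α} (h : Reach M A J x y) (hA : ∀ l, M.IsBase (A l)) :
    x ∉ M.closure ∅ := by
  intro hx
  obtain ⟨⟨l, _, hl⟩, h2⟩ := h
  have h3 := h2 _ tight_loops hx
  exact (hA l).indep.notMem_closure_sdiff_of_mem hl
    (M.closure_subset_closure (empty_subset _) h3)

/-- If `v ∈ A i`, `i ∈ J`, `F` is `J`-tight and contains an element outside
`closure (A i \ {v})`, then `v ∈ F`. -/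
theorem mem_of_tight {F : Set α} (hF : Tight M A J F) {i : ι} (hi : i ∈ J) {e v : α}
    (he : e ∈ F) (hev : e ∉ M.closure (A i \ {v})) : v ∈ F := by
  by_contra hv
  apply hev
  rw [← hF.2 i hi] at he
  refine M.closure_subset_closure ?_ he
  rintro u ⟨hu, huF⟩
  exact ⟨hu, fun h => hv (by rw [← mem_singleton_iff.mp h]; exact huF)⟩

end Pool.Agent.WL
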