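import Pool.Agent.WL.Defs

/-!
# WL/Base: the first cases of (S1)

* `S1 α 1 0`: `M.eRank ≤ 0`, so the base `A 0` is empty, but `Reach` gives `y ∈ A 0`.
* `S1 α 2 2`: bases `A 0`, `A 1` of at most two elements. `y ∈ A l`, WLOG `l = 0` (otherwise use
  `A ∘ Equiv.swap 0 1`; or do both cases). `x` is not a loop (`Reach.notMem_loops`).
  - If `A 0 = {y}` (rank 1): `A' := A`, `k := 1`: a `{0}`-tight flat `F ∋ x` is not `closure ∅`, so `A 0 ∩ F` is
    nonempty, `y ∈ F`.
  - Rank 2: `A 0 = {y, a}`, `A 1 = {b, c}`. If `x ∉ closure {a}`: `A' := A`, `k := 1`: a `{0}`-tight flat `F ∋ x` has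
    `F = closure (A 0 ∩ F)`, `A 0 ∩ F ⊆ {a}` is impossible, so `y ∈ F`.
    If `x ∈ closure {a}` (so `closure {x} = closure {a}`): `b ∉ closure {a}` and `c ∉ closure {a}`: otherwise
    `closure {a}` is tight for both bases, contains `x` and not `y`. `b, c` are independent, so one of them,
    say `b` (the other case is the same), is not in `closure {y}`. Let `A' 0 := {y, b}`, `A' 1 := {a, c}`: bases
    (two independent elements in rank 2), disjoint, the same union. `k := 1`: a `{0}`-tight `F ∋ x` has
    `F = closure ({y, b} ∩ F)`; if `y ∉ F` then `x ∈ closure {b}`, so (x not a loop) `b ∈ closure {x} = closure {a}`,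
    a contradiction.
-/

set_option autoImplicit false

namespace Pool.Agent.WL

open Set Pool.Agent.WD

variable {α : Type*}

theorem S1_one : S1 α 1 0 := by
  intro M A x y hM hA _ _ hr
  exfalso
  obtain ⟨⟨l, _, hy⟩, _⟩ := hr
  have h1 : (A l).encard ≤ 0 := by
    rw [(hA.1 l).encard_eq_eRank]
    exact_mod_cast hM
  have h2 : A l = ∅ := by
    rw [← encard_eq_zero]
    exact le_antisymm h1 bot_le
  rw [h2] at hy
  exact hy

/-- The main case analysis: `y ∈ A i`. -/
private theorem S1_two_aux (M : Matroid α) (A : Fin 2 → Set α) (x y : α)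
    (hM : M.eRank ≤ (2 : ℕ∞)) (hA : IsFam M A) (hxE : x ∈ M.E) (hxA : ∀ l, x ∉ A l)
    (hr : Reach M A univ x y) (i j : Fin 2) (hij : i ≠ j) (hall : ∀ l, l = i ∨ l = j)
    (hyi : y ∈ A i) :
    ∃ (A' : Fin 2 → Set α) (k : Fin 2), IsFam M A' ∧ (⋃ l, A' l) = (⋃ l, A l) ∧
      Reach M A' {k}ᶜ x y := by
  classical
  have hxloop : x ∉ M.closure ∅ := hr.notMem_loops hA.1
  have hxnl : M.IsNonloop x := Matroid.isNonloop_of_notMem_closure hxloop hxE
  have hi : i ∈ ({j}ᶜ : Set (Fin 2)) := hij
  by_cases hcase : x ∈ M.closure (A i \ {y})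
  swap
  · exact ⟨A, j, hA, rfl, ⟨i, hi, hyi⟩, fun F hF hxF => mem_of_tight hF hi hxF hcase⟩
  -- `A i = {y, a}`
  have hcardi : (A i).encard ≤ 2 := by
    rw [(hA.1 i).encard_eq_eRank]; exact hM
  have h1 : (A i \ {y}).encard ≤ 1 := by
    have h := encard_sdiff_singleton_add_one hyi
    rw [← h] at hcardi
    have h2 : (A i \ {y}).encard + 1 ≤ 1 + 1 := by
      calc _ ≤ (2 : ℕ∞) := hcardi
        _ = 1 + 1 := by norm_num
    exact (ENat.add_le_add_iff_right (by simp)).mp h2
  rcases encard_le_one_iff_eq.mp h1 with h0 | ⟨a, ha⟩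
  · rw [h0] at hcase
    exact absurd hcase hxloop
  have haAi : a ∈ A i := by
    have : a ∈ A i \ {y} := by rw [ha]; exact mem_singleton a
    exact this.1
  have hay : a ≠ y := by
    have : a ∈ A i \ {y} := by rw [ha]; exact mem_singleton a
    exact this.2
  have hAi : A i = {y, a} := by
    rw [← ha]
    ext z
    simp only [mem_insert_iff, mem_sdiff, mem_singleton_iff]
    constructor
    · intro hz
      by_cases hzy : z = y
      · exact Or.inl hzy
      · exact Or.inr ⟨hz, hzy⟩
    · rintro (rfl | h)
      · exact hyi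
      · exact h.1
  rw [ha] at hcase
  have hynot : y ∉ M.closure {a} := by
    have := (hA.1 i).indep.notMem_closure_sdiff_of_mem hyi
    rwa [ha] at this
  have haE : a ∈ M.E := (hA.1 i).subset_ground haAi
  have hyE : y ∈ M.E := (hA.1 i).subset_ground hyi
  have hanl : M.IsNonloop a := (hA.1 i).indep.isNonloop_of_mem haAi
  -- elements of `A j` are not in `closure {a}`
  have hnota : ∀ e ∈ A j, e ∉ M.closure {a} := by
    intro e he hea
    have henl : M.IsNonloop e := (hA.1 j).indep.isNonloop_of_mem he
    have hae : a ∈ M.closure {e} := henl.mem_closure_singleton hea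
    have htight : Tight M A univ (M.closure {a}) := by
      refine ⟨M.isFlat_closure _, fun l _ => Subset.antisymm ?_ ?_⟩
      · have h := M.closure_subset_closure (inter_subset_right (s := A l) (t := M.closure {a}))
        rwa [M.closure_closure] at h
      · rcases hall l with rfl | rfl
        · apply M.closure_subset_closure
          rintro z hz
          rw [mem_singleton_iff] at hz
          subst hz
          exact ⟨haAi, M.mem_closure_of_mem (mem_singleton z) (by simpa using haE)⟩
        · have hsub : ({e} : Set α) ⊆ A l ∩ M.closure {a} := by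
            rintro z hz
            rw [mem_singleton_iff] at hz
            subst hz
            exact ⟨he, hea⟩
          calc M.closure {a} ⊆ M.closure {e} := by
                apply M.closure_subset_closure_of_subset_closure
                rintro z hz
                rw [mem_singleton_iff] at hz
                subst hz
                exact hae
            _ ⊆ _ := M.closure_subset_closure hsub
    exact hynot (hr.2 _ htight hcase)
  -- some element `b` of `A j` is not in `closure {y}`
  have hb : ∃ b ∈ A j, b ∉ M.closure {y} := by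
    by_contra hcon
    push Not at hcon
    have h2 : M.closure (A j) ⊆ M.closure {y} :=
      M.closure_subset_closure_of_subset_closure hcon
    rw [(hA.1 j).closure_eq] at h2
    have h3 : a ∈ M.closure {y} := h2 haE
    exact hynot (hanl.mem_closure_singleton h3)
  obtain ⟨b, hbj, hby⟩ := hb
  have hbE : b ∈ M.E := (hA.1 j).subset_ground hbj
  have hbi : b ∉ A i := fun h => (hA.2 hij).le_bot ⟨h, hbj⟩
  have haj : a ∉ A j := fun h => (hA.2 hij).le_bot ⟨haAi, h⟩
  have hyj : y ∉ A j := fun h => (hA.2 hij).le_bot ⟨hyi, h⟩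
  have hab : a ≠ b := fun h => hbi (h ▸ haAi)
  -- `A j \ {b}` is a singleton
  have hcardj : (A j).encard = 2 := by
    rw [(hA.1 j).encard_eq_eRank, ← (hA.1 i).encard_eq_eRank, hAi, encard_pair hay.symm]
  have h4 : (A j \ {b}).encard ≤ 1 := by
    have h := encard_sdiff_singleton_add_one hbj
    rw [hcardj] at h
    have h2 : (A j \ {b}).encard + 1 ≤ 1 + 1 := by
      calc _ = (2 : ℕ∞) := h
        _ ≤ 1 + 1 := by norm_num
    exact (ENat.add_le_add_iff_right (by simp)).mp h2
  have hAia : A i \ {a} = {y} := by
    rw [hAi]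
    ext z
    simp only [mem_insert_iff, mem_sdiff, mem_singleton_iff]
    constructor
    · rintro ⟨h | h, h'⟩
      · exact h
      · exact absurd h h'
    · rintro rfl
      exact ⟨Or.inl rfl, hay.symm⟩
  have hynl : M.IsNonloop y := (hA.1 i).indep.isNonloop_of_mem hyi
  have hbase_i : M.IsBase (insert b (A i \ {a})) := by
    apply (hA.1 i).exchange_isBase_of_indep hbi
    rw [hAia, (Matroid.indep_singleton.mpr hynl).insert_indep_iff]
    exact Or.inl ⟨hbE, hby⟩
  have hbase_j : M.IsBase (insert a (A j \ {b})) := by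
    apply (hA.1 j).exchange_isBase_of_indep haj
    rcases encard_le_one_iff_eq.mp h4 with h0 | ⟨c, hc⟩
    · rw [h0]
      simpa using hanl
    · have hcj : c ∈ A j := by
        have : c ∈ A j \ {b} := by rw [hc]; exact mem_singleton c
        exact this.1
      rw [hc, pair_comm, (Matroid.indep_singleton.mpr hanl).insert_indep_iff]
      exact Or.inl ⟨(hA.1 j).subset_ground hcj, hnota c hcj⟩
  set A' : Fin 2 → Set α := fun l => if l = i then insert b (A i \ {a}) else
    insert a (A j \ {b}) with hA'
  have hA'i : A' i = insert b (A i \ {a}) := by simp [hA']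
  have hA'j : A' j = insert a (A j \ {b}) := by simp [hA', hij.symm]
  have hdis : Disjoint (A' i) (A' j) := by
    rw [hA'i, hA'j, Set.disjoint_left]
    rintro z (rfl | hz) (hz2 | hz2)
    · exact hab hz2.symm
    · exact hz2.2 rfl
    · exact hz.2 hz2
    · exact (hA.2 hij).le_bot ⟨hz.1, hz2.1⟩
  refine ⟨A', j, ⟨?_, ?_⟩, ?_, ⟨i, hi, ?_⟩, ?_⟩
  · intro l
    rcases hall l with rfl | rfl
    · rw [hA'i]; exact hbase_i
    · rw [hA'j]; exact hbase_j
  · intro l l' hll
    rcases hall l with rfl | rfl <;> rcases hall l' with rfl | rfl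
    · exact absurd rfl hll
    · exact hdis
    · exact hdis.symm
    · exact absurd rfl hll
  · ext z
    simp only [mem_iUnion]
    constructor
    · rintro ⟨l, hl⟩
      rcases hall l with rfl | rfl
      · rw [hA'i] at hl
        rcases hl with rfl | hl
        · exact ⟨j, hbj⟩
        · exact ⟨_, hl.1⟩
      · rw [hA'j] at hl
        rcases hl with rfl | hl
        · exact ⟨i, haAi⟩
        · exact ⟨_, hl.1⟩
    · rintro ⟨l, hl⟩
      rcases hall l with rfl | rfl
      · by_cases hza : z = a
        · refine ⟨j, ?_⟩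
          rw [hA'j, hza]
          exact mem_insert _ _
        · refine ⟨l, ?_⟩
          rw [hA'i]
          exact Or.inr ⟨hl, hza⟩
      · by_cases hzb : z = b
        · refine ⟨i, ?_⟩
          rw [hA'i, hzb]
          exact mem_insert _ _
        · refine ⟨l, ?_⟩
          rw [hA'j]
          exact Or.inr ⟨hl, hzb⟩
  · rw [hA'i]
    exact Or.inr ⟨hyi, hay.symm⟩
  · intro F hF hxF
    apply mem_of_tight hF hi hxF
    rw [hA'i, hAia]
    have hyb : y ≠ b := fun h => hbi (h ▸ hyi)
    have heq : (insert b {y} : Set α) \ {y} = {b} := by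
      ext z
      simp only [mem_insert_iff, mem_sdiff, mem_singleton_iff]
      constructor
      · rintro ⟨h | h, h'⟩
        · exact h
        · exact absurd h h'
      · rintro rfl
        exact ⟨Or.inl rfl, hyb.symm⟩
    rw [heq]
    intro hxb
    have hbx : b ∈ M.closure {x} := hxnl.mem_closure_singleton hxb
    apply hnota b hbj
    have h5 : M.closure {x} ⊆ M.closure {a} := by
      apply M.closure_subset_closure_of_subset_closure
      rintro z hz
      rw [mem_singleton_iff] at hz
      subst hz
      exact hcase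
    exact h5 hbx

theorem S1_two : S1 α 2 2 := by
  intro M A x y hM hA hxE hxA hr
  obtain ⟨⟨l, _, hy⟩, _⟩ := id hr
  have hM' : M.eRank ≤ (2 : ℕ∞) := by exact_mod_cast hM
  have hall : ∀ l : Fin 2, l = 0 ∨ l = 1 := by decide
  rcases hall l with rfl | rfl
  · exact S1_two_aux M A x y hM' hA hxE hxA hr 0 1 (by decide) hall hy
  · exact S1_two_aux M A x y hM' hA hxE hxA hr 1 0 (by decide)
      (fun l => (hall l).symm) hy

end Pool.Agent.WL
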