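import Pool.Agent.WL.Combine
import Pool.Agent.WL.Base

/-!
# WL/Lucas: (S1) for `n + 1` bases in rank `m < L_(n+1)` (Lucas numbers `L_(n+1) = fib n + fib (n+2)`)

PROOF. `S1_lucas` by strong induction on `n`: `n = 0`: `m = 0`, `S1_one`; `n = 1`: `m ≤ 2`, `S1_two` and `S1.mono`;
`n + 2`: `fib (n+2) + fib (n+4) = (fib n + fib (n+2)) + (fib (n+1) + fib (n+3))` (`Nat.fib_add_two`); use
`S1.combine` with `p = n + 1`, `m := fib n + fib (n+2) - 1`, `m₁ := fib (n+1) + fib (n+3) - 1`, and `S1.mono`.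
`S1_lucas_all`: `Nat.fib_mono`.
-/

set_option autoImplicit false

namespace Pool.Agent.WL

open Set Pool.Agent.WD

variable {α : Type*}

theorem S1_lucas (n : ℕ) :
    ∀ m, m + 1 ≤ Nat.fib n + Nat.fib (n + 2) → S1 α (n + 1) m := by
  induction n using Nat.strong_induction_on with
  | _ n ih =>
    match n, ih with
    | 0, _ =>
      intro m hm
      have h0 : m = 0 := by
        have h1 : Nat.fib 0 + Nat.fib (0 + 2) = 1 := by decide
        omega
      subst h0
      exact S1_one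
    | 1, _ =>
      intro m hm
      have h0 : m ≤ 2 := by
        have h1 : Nat.fib 1 + Nat.fib (1 + 2) = 3 := by decide
        omega
      exact S1_two.mono h0
    | k + 2, ih =>
      intro m hm
      have hf1 : 0 < Nat.fib (k + 1) := Nat.fib_pos.mpr (by omega)
      have hf2 : 0 < Nat.fib (k + 2) := Nat.fib_pos.mpr (by omega)
      have e4 : Nat.fib (k + 2 + 2) = Nat.fib (k + 2) + Nat.fib (k + 3) := Nat.fib_add_two
      have e3 : Nat.fib (k + 3) = Nat.fib (k + 1) + Nat.fib (k + 2) := Nat.fib_add_two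
      have e2 : Nat.fib (k + 2) = Nat.fib k + Nat.fib (k + 1) := Nat.fib_add_two
      have e3' : Nat.fib (k + 1 + 2) = Nat.fib (k + 3) := rfl
      have h0 := ih k (by omega) (Nat.fib k + Nat.fib (k + 2) - 1) (by omega)
      have h1 := ih (k + 1) (by omega) (Nat.fib (k + 1) + Nat.fib (k + 1 + 2) - 1) (by omega)
      have h2 : S1 α (k + 2 + 1) _ := S1.combine (p := k + 1) (by omega) h0 h1
      apply h2.mono
      omega

theorem S1_lucas_all {d m : ℕ} (hd : 1 ≤ d) (hm : m + 1 ≤ Nat.fib (d - 1) + Nat.fib (d + 1)) :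
    ∀ q, d ≤ q → S1 α q m := by
  intro q hq
  obtain ⟨n, rfl⟩ : ∃ n, q = n + 1 := ⟨q - 1, by omega⟩
  apply S1_lucas
  have h1 : Nat.fib (d - 1) ≤ Nat.fib n := Nat.fib_mono (by omega)
  have h2 : Nat.fib (d + 1) ≤ Nat.fib (n + 2) := Nat.fib_mono (by omega)
  omega

end Pool.Agent.WL
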