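import Pool.Agent.WL.Defs
import Pool.Agent.WD.Reach

/-!
# WL/Tools: greatest tight flats and walks

* `exists_greatest`: `M.closure ∅` is tight and does not contain `y` (an element of a base). Among the
  `J`-tight flats not containing `y` choose `Y` with `M.eRk Y` maximal (the values are `≤ M.eRank < ⊤`;
  e.g. well-foundedness of `>` on `ℕ`-valued ranks below `M.rank`). For another one `F`, the flat
  `G := M.closure (F ∪ Y)` is tight (`tight_join`), `y ∉ G` (`join_inter`), `Y ⊆ G`, so `eRk G = eRk Y`, so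
  `G = Y` (a flat of the same finite rank; `IsFlat` + `IsRkFinite.closure_eq_closure_of_subset_of_eRk_ge_eRk`
  or the proof of `eRk_flat_insert` in `WD/Select.lean`), and `F ⊆ G`.
* `edge_closure`: `Matroid.IsBase.exchange_base_of_notMem_closure` and its converse: if `z ∉ B`,
  `insert z (B \ {v})` is independent, so `z ∉ closure (B \ {v})` (see `WD/Augment.lean`, proof of `hxncl`).
* `walk_exit`, `walk_last`: induction on the walk.
* `exists_walk_univ`: `WD.exists_walk` with `T := M.closure ∅`, `T' := M.E`, `J := univ`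
  (`y ∈ A l₀` is not a loop, `x` is not a loop by `Reach.notMem_loops`), then monotonicity of walks in
  `W` (`M.E \ closure ∅ ⊆ M.E`).
-/

set_option autoImplicit false

namespace Pool.Agent.WL

open Set Pool.Agent.WD

variable {α ι : Type*} {M : Matroid α} {A : ι → Set α} {J : Set ι}

private theorem eRk_flat_insert {L L' : Set α} {e : α} (hL : M.IsFlat L) (hL' : M.IsFlat L')
    (hLL' : L ⊆ L') (he : e ∈ L') (heL : e ∉ L) : M.eRk L + 1 ≤ M.eRk L' := by
  have h1 : M.eRk (insert e L) = M.eRk L + 1 := by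
    apply Matroid.eRk_insert_eq_add_one
    refine ⟨hL'.subset_ground he, ?_⟩
    rw [hL.closure]; exact heL
  rw [← h1]
  exact M.eRk_mono (insert_subset he hLL')

/-- There is a greatest `J`-tight flat not containing `y`. -/
theorem exists_greatest [M.RankFinite] (hA : ∀ l, M.IsBase (A l)) {y : α}
    (hy : ∃ l ∈ J, y ∈ A l) :
    ∃ Y, Tight M A J Y ∧ y ∉ Y ∧ ∀ F, Tight M A J F → y ∉ F → F ⊆ Y := by
  obtain ⟨l₀, hl₀, hyl⟩ := hy
  obtain ⟨k, hk⟩ := ENat.ne_top_iff_exists.mp (M.eRank_ne_top_iff.2 inferInstance)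
  set S : Set ℕ := {n | ∃ F, Tight M A J F ∧ y ∉ F ∧ M.eRk F = (n : ℕ∞)} with hS
  have hyloop : y ∉ M.closure ∅ := by
    intro h1
    exact (hA l₀).indep.notMem_closure_sdiff_of_mem hyl
      (M.closure_subset_closure (empty_subset _) h1)
  have hne : S.Nonempty := by
    refine ⟨0, M.closure ∅, tight_loops, hyloop, ?_⟩
    rw [Matroid.eRk_closure_eq, Matroid.eRk_empty, Nat.cast_zero]
  have hbd : BddAbove S := by
    refine ⟨k, ?_⟩
    rintro n ⟨F, _, _, hF⟩
    have h1 := M.eRk_le_eRank F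
    rw [hF, ← hk] at h1
    exact_mod_cast h1
  obtain ⟨Y, hY, hyY, hYr⟩ := Nat.sSup_mem hne hbd
  refine ⟨Y, hY, hyY, ?_⟩
  intro F hF hyF e heF
  by_contra heY
  have hG := tight_join hF hY
  have hGE : F ∪ Y ⊆ M.E := union_subset hF.1.subset_ground hY.1.subset_ground
  have hGs := M.subset_closure (F ∪ Y) hGE
  have hyG : y ∉ M.closure (F ∪ Y) := by
    intro h1
    rcases join_inter hA hF hY hl₀ hyl h1 with h2 | h2
    · exact hyF h2
    · exact hyY h2
  have h3 := eRk_flat_insert hY.1 hG.1 (subset_union_right.trans hGs) (hGs (Or.inl heF)) heY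
  have h4 : M.eRk (M.closure (F ∪ Y)) ≠ ⊤ := by
    have h5 := M.eRk_le_eRank (M.closure (F ∪ Y))
    rw [← hk] at h5
    exact ne_top_of_le_ne_top (ENat.natCast_ne_top k) h5
  obtain ⟨g, hg⟩ := ENat.ne_top_iff_exists.mp h4
  have h5 : g ∈ S := ⟨_, hG, hyG, hg.symm⟩
  have h6 := le_csSup hbd h5
  rw [hYr, ← hg] at h3
  have h7 : sSup S + 1 ≤ g := by exact_mod_cast h3
  omega

/-- An edge `z → v` of the digraph: `z` is not in the hyperplane `closure (A l \ {v})`. -/
theorem edge_closure (hA : ∀ l, M.IsBase (A l)) {W : Set α} (hW : W ⊆ M.E) {z v : α} :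
    Edge M A J W z v ↔
      z ∈ W ∧ v ∈ W ∧ ∃ l ∈ J, v ∈ A l ∧ z ∉ A l ∧ z ∉ M.closure (A l \ {v}) := by
  constructor
  · rintro ⟨h1, h2, l, hl, h3, h4, h5⟩
    refine ⟨h1, h2, l, hl, h3, h4, ?_⟩
    exact (((hA l).indep.subset sdiff_subset).notMem_closure_iff_of_notMem
        (fun h => h4 h.1) (hW h1)).2 h5.indep
  · rintro ⟨h1, h2, l, hl, h3, h4, h5⟩
    exact ⟨h1, h2, l, hl, h3, h4, (hA l).exchange_base_of_notMem_closure h3 h5 (hW h1)⟩

theorem walk_mono {W W' : Set α} (hW : W ⊆ W') (n : ℕ) :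
    ∀ x y, Walk M A J W n x y → Walk M A J W' n x y := by
  induction n with
  | zero =>
    intro x y h
    exact h
  | succ n ih =>
    rintro x y ⟨u, ⟨h1, h2, h3⟩, hw⟩
    exact ⟨u, ⟨hW h1, hW h2, h3⟩, ih u y hw⟩

/-- First exit of a walk from the set `Y`. -/
theorem walk_exit {W Y : Set α} (n : ℕ) :
    ∀ x z, Walk M A J W n x z → x ∈ Y → z ∉ Y →
      ∃ (m : ℕ) (e v : α), m < n ∧ Walk M A J (W ∩ Y) m x e ∧ e ∈ Y ∧ Edge M A J W e v ∧ v ∉ Y := by
  induction n with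
  | zero =>
    intro x z h hx hz
    obtain rfl : x = z := h
    exact absurd hx hz
  | succ n ih =>
    rintro x z ⟨u, hxu, hw⟩ hx hz
    by_cases hu : u ∈ Y
    · obtain ⟨m, e, v, hm, hw', heY, hev, hvY⟩ := ih u z hw hu hz
      exact ⟨m + 1, e, v, by omega, ⟨u, ⟨⟨hxu.1, hx⟩, ⟨hxu.2.1, hu⟩, hxu.2.2⟩, hw'⟩, heY, hev,
        hvY⟩
    · exact ⟨0, x, u, by omega, rfl, hx, hxu, hu⟩

private theorem walk_last_aux {W X : Set α} (n : ℕ) :
    ∀ e z, Walk M A J W n e z → z ∉ X →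
      (∃ (m : ℕ) (e' g : α), m < n ∧ e' ∈ X ∧ g ∉ X ∧ Edge M A J W e' g ∧
        Walk M A J (W \ X) m g z) ∨ (Walk M A J (W \ X) n e z ∧ e ∉ X) := by
  induction n with
  | zero =>
    intro e z h hz
    obtain rfl : e = z := h
    exact Or.inr ⟨rfl, hz⟩
  | succ n ih =>
    rintro e z ⟨u, heu, hw⟩ hz
    rcases ih u z hw hz with ⟨m, e', g, hm, h1, h2, h3, h4⟩ | ⟨h1, h2⟩
    · exact Or.inl ⟨m, e', g, by omega, h1, h2, h3, h4⟩
    · by_cases he : e ∈ X
      · exact Or.inl ⟨n, e, u, by omega, he, h2, heu, h1⟩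
      · exact Or.inr ⟨⟨u, ⟨⟨heu.1, he⟩, ⟨heu.2.1, h2⟩, heu.2.2⟩, h1⟩, he⟩

/-- Last exit of a walk from the set `X`. -/
theorem walk_last {W X : Set α} (n : ℕ) :
    ∀ e z, Walk M A J W n e z → e ∈ X → z ∉ X →
      ∃ (m : ℕ) (e' g : α), m < n ∧ e' ∈ X ∧ g ∉ X ∧ Edge M A J W e' g ∧
        Walk M A J (W \ X) m g z := by
  intro e z h he hz
  rcases walk_last_aux n e z h hz with h1 | ⟨_, h1⟩
  · exact h1
  · exact absurd he h1

/-- A reachable element is the end of a walk. -/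
theorem exists_walk_univ (hA : ∀ l, M.IsBase (A l)) {x y : α} (hx : x ∈ M.E)
    (h : Reach M A univ x y) : ∃ n, Walk M A univ M.E n x y := by
  obtain ⟨⟨l₀, hl₀, hyl⟩, h2⟩ := h
  have hyloop : y ∉ M.closure ∅ := by
    intro h1
    exact (hA l₀).indep.notMem_closure_sdiff_of_mem hyl
      (M.closure_subset_closure (empty_subset _) h1)
  have hxloop : x ∉ M.closure ∅ := Reach.notMem_loops ⟨⟨l₀, hl₀, hyl⟩, h2⟩ hA
  obtain ⟨n, hn⟩ := exists_walk hA (tight_loops (J := univ)) (tight_ground hA)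
    (M.closure_subset_ground ∅) (x := x) (y := y) ⟨hx, hxloop⟩ hl₀ hyl hyloop
    (fun F hF _ hxF => h2 F hF hxF)
  exact ⟨n, walk_mono sdiff_subset n x y hn⟩

end Pool.Agent.WL
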