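import Pool.Agent.WL.Defs

/-!
# WL/Transfer: what does not change when the bases are changed inside / outside a tight flat

* `closure_sdiff_congr`: `v ∈ B \ X`, `X = closure (B ∩ X) = closure (B' ∩ X)`, `B' \ X = B \ X`. Then
  `B \ {v} = (B ∩ X) ∪ ((B \ X) \ {v})`, so `closure (B \ {v}) = closure (X ∪ ((B \ X) \ {v}))`
  (`closure_union_closure_left_eq`), the same for `B'`.
* `walk_inside`: edges `z → u` with `z, u ∈ Y`, `u ∈ A l`. For `l ∉ J` nothing changes. For `l ∈ J`:
  `u ∈ A' l` and `z ∉ A' l` by `h2`; if `z ∈ closure (A' l \ {u})`, then as `z ∈ Y = closure (A l ∩ Y) =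
  closure (A' l ∩ Y)` also `z ∈ closure ((A' l \ {u}) ∩ (A' l ∩ Y))`
  (`Indep.closure_inter_eq_inter_closure`) `⊆ closure (A l \ {u})`, a contradiction (the set
  `insert z (A l \ {u})` is independent). Convert with `IsBase.exchange_base_of_notMem_closure`.
* `walk_outside`: edges `z → u` with `z, u ∉ X`, `u ∈ A l`. For `l ∉ J` nothing changes. For `l ∈ J`:
  `u ∈ A' l`, `z ∉ A' l` by `h2`, and `closure (A' l \ {u}) = closure (A l \ {u})` by
  `closure_sdiff_congr`. The walk of length 0 is trivial.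
* `tight_univ_congr`: finitely many (`ι` finite) pairwise disjoint bases of finite rank.
  `Tight M A univ F` gives `|⋃ A ∩ F| = Σ |A l ∩ F| = |ι| r(F)` (a basis of `F`), and
  `Σ |A' l ∩ F| = |⋃ A' ∩ F| = |⋃ A ∩ F|` with `|A' l ∩ F| ≤ r(F)` for all `l`, so equality for all `l`, so
  `A' l ∩ F` is a basis of `F`. See the counting in `WD/Count.lean` (copy `ncard_iUnion_eq`, which is private).
-/

set_option autoImplicit false

namespace Pool.Agent.WL

open Set Pool.Agent.WD

variable {α ι : Type*} {M : Matroid α} {A A' : ι → Set α} {J : Set ι}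

theorem closure_sdiff_congr {B B' X : Set α} (h1 : M.closure (B ∩ X) = X)
    (h2 : M.closure (B' ∩ X) = X) (h : B' \ X = B \ X) {v : α} (hv : v ∉ X) :
    M.closure (B' \ {v}) = M.closure (B \ {v}) := by
  have key : ∀ C : Set α, M.closure (C ∩ X) = X →
      M.closure (C \ {v}) = M.closure (X ∪ ((C \ X) \ {v})) := by
    intro C hC
    have e : C \ {v} = (C ∩ X) ∪ ((C \ X) \ {v}) := by
      ext u
      constructor
      · rintro ⟨h3, h4⟩
        by_cases h5 : u ∈ X
        · exact Or.inl ⟨h3, h5⟩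
        · exact Or.inr ⟨⟨h3, h5⟩, h4⟩
      · rintro (⟨h3, h4⟩ | ⟨⟨h3, h4⟩, h5⟩)
        · exact ⟨h3, fun h5 => hv (by rw [← mem_singleton_iff.mp h5]; exact h4)⟩
        · exact ⟨h3, h5⟩
    rw [e, ← M.closure_union_closure_left_eq, hC]
  rw [key B' h2, key B h1, h]

theorem walk_inside (hA : ∀ l, M.IsBase (A l)) (hA' : ∀ l, M.IsBase (A' l)) {Y : Set α}
    (hY : Tight M A J Y) (h1 : ∀ l, l ∉ J → A' l = A l) (h2 : ∀ l, A' l ∩ Y = A l ∩ Y) (n : ℕ) :
    ∀ x e, Walk M A univ Y n x e → Walk M A' univ Y n x e := by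
  induction n with
  | zero =>
    intro x e h
    exact h
  | succ n ih =>
    intro x e h
    obtain ⟨u, ⟨hz, hu, l, hl, hul, hzl, hbase⟩, hw⟩ := h
    refine ⟨u, ⟨hz, hu, l, hl, ?_⟩, ih u e hw⟩
    by_cases hlJ : l ∈ J
    · have hzE : x ∈ M.E := hY.1.subset_ground hz
      have hu1 : u ∈ A' l := by
        have h3 : u ∈ A l ∩ Y := ⟨hul, hu⟩
        rw [← h2 l] at h3
        exact h3.1
      have hz1 : x ∉ A' l := by
        intro h3
        have h4 : x ∈ A' l ∩ Y := ⟨h3, hz⟩
        rw [h2 l] at h4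
        exact hzl h4.1
      refine ⟨hu1, hz1, ?_⟩
      apply (hA' l).exchange_base_of_notMem_closure hu1 _ hzE
      intro hmem
      have hY' : M.closure (A' l ∩ Y) = Y := by
        rw [h2 l]
        exact hY.2 l hlJ
      have h5 : x ∈ M.closure (A' l \ {u}) ∩ M.closure (A' l ∩ Y) := by
        rw [hY']
        exact ⟨hmem, hz⟩
      rw [← Matroid.Indep.closure_inter_eq_inter_closure
        ((hA' l).indep.subset (union_subset sdiff_subset inter_subset_left))] at h5
      have h6 : (A' l \ {u}) ∩ (A' l ∩ Y) ⊆ A l \ {u} := by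
        rintro t ⟨ht1, ht2⟩
        rw [h2 l] at ht2
        exact ⟨ht2.1, ht1.2⟩
      have h7 := M.closure_subset_closure h6 h5
      exact ((hA l).indep.subset sdiff_subset).notMem_closure_iff_of_notMem
        (fun h => hzl h.1) hzE |>.2 hbase.indep h7
    · rw [h1 l hlJ]
      exact ⟨hul, hzl, hbase⟩

theorem walk_outside (hA : ∀ l, M.IsBase (A l)) (hA' : ∀ l, M.IsBase (A' l)) {X W : Set α}
    (hW : W ⊆ M.E) (hX : Tight M A J X) (hX' : Tight M A' J X) (h1 : ∀ l, l ∉ J → A' l = A l)
    (h2 : ∀ l, A' l \ X = A l \ X) (n : ℕ) :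
    ∀ g w, Walk M A univ (W \ X) n g w → Walk M A' univ W n g w := by
  induction n with
  | zero =>
    intro x e h
    exact h
  | succ n ih =>
    intro x e h
    obtain ⟨u, ⟨hz, hu, l, hl, hul, hzl, hbase⟩, hw⟩ := h
    refine ⟨u, ⟨hz.1, hu.1, l, hl, ?_⟩, ih u e hw⟩
    by_cases hlJ : l ∈ J
    · have hzE : x ∈ M.E := hW hz.1
      have hu1 : u ∈ A' l := by
        have h3 : u ∈ A l \ X := ⟨hul, hu.2⟩
        rw [← h2 l] at h3
        exact h3.1
      have hz1 : x ∉ A' l := by
        intro h3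
        have h4 : x ∈ A' l \ X := ⟨h3, hz.2⟩
        rw [h2 l] at h4
        exact hzl h4.1
      refine ⟨hu1, hz1, ?_⟩
      apply (hA' l).exchange_base_of_notMem_closure hu1 _ hzE
      rw [closure_sdiff_congr (hX.2 l hlJ) (hX'.2 l hlJ) (h2 l) hu.2]
      exact (((hA l).indep.subset sdiff_subset).notMem_closure_iff_of_notMem
        (fun h => hzl h.1) hzE).2 hbase.indep
    · rw [h1 l hlJ]
      exact ⟨hul, hzl, hbase⟩

/-- Cardinality of a union of pairwise disjoint finite sets, as a sum. -/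
private theorem ncard_iUnion_eq [Fintype ι] (A : ι → Set α) (hfin : ∀ l, (A l).Finite)
    (hd : Pairwise (Function.onFun Disjoint A)) : (⋃ l, A l).ncard = ∑ l, (A l).ncard := by
  classical
  have h1 : (⋃ l, A l) = (((Finset.univ : Finset ι).biUnion (fun l => (hfin l).toFinset) :
      Finset α) : Set α) := by
    ext x
    simp
  rw [h1, Set.ncard_coe_finset, Finset.card_biUnion]
  · refine Finset.sum_congr rfl (fun l _ => ?_)
    rw [Set.ncard_eq_toFinset_card _ (hfin l)]
  · intro i _ j _ hij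
    have := hd hij
    rw [Function.onFun, Set.disjoint_left] at this
    rw [Function.onFun, Finset.disjoint_left]
    intro x hx hx'
    simp only [Set.Finite.mem_toFinset] at hx hx'
    exact this hx hx'

/-- Tightness for all the bases depends only on the union of the bases. -/
theorem tight_univ_congr [Finite ι] [M.RankFinite] (hA : IsFam M A) (hA' : IsFam M A')
    (hU : (⋃ l, A' l) = ⋃ l, A l) {F : Set α} (hF : Tight M A univ F) : Tight M A' univ F := by
  classical
  have := Fintype.ofFinite ι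
  have hfA : ∀ l, (A l ∩ F).Finite := fun l => (hA.1 l).finite.subset inter_subset_left
  have hfD : ∀ l, (A' l ∩ F).Finite := fun l => (hA'.1 l).finite.subset inter_subset_left
  have hdA : Pairwise (Function.onFun Disjoint (fun l => A l ∩ F)) := by
    intro i j hij
    exact (hA.2 hij).mono inter_subset_left inter_subset_left
  have hdD : Pairwise (Function.onFun Disjoint (fun l => A' l ∩ F)) := by
    intro i j hij
    exact (hA'.2 hij).mono inter_subset_left inter_subset_left
  have hbas : ∀ l, M.IsBasis (A l ∩ F) F := by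
    intro l
    refine ((hA.1 l).indep.subset inter_subset_left).isBasis_of_subset_of_subset_closure
      inter_subset_right ?_
    exact (hF.2 l (mem_univ l)).symm.subset
  have hle : ∀ l, (A' l ∩ F).ncard ≤ (A l ∩ F).ncard := by
    intro l
    have h2 : M.Indep (A' l ∩ F) := (hA'.1 l).indep.subset inter_subset_left
    have h3 := h2.encard_le_eRk_of_subset inter_subset_right
    rw [← (hbas l).encard_eq_eRk] at h3
    rwa [← (hfD l).cast_ncard_eq, ← (hfA l).cast_ncard_eq, Nat.cast_le] at h3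
  have hsum : ∑ l, (A' l ∩ F).ncard = ∑ l, (A l ∩ F).ncard := by
    rw [← ncard_iUnion_eq _ hfA hdA, ← ncard_iUnion_eq _ hfD hdD, ← iUnion_inter,
      ← iUnion_inter, hU]
  have heq : ∀ l, (A' l ∩ F).ncard = (A l ∩ F).ncard := by
    intro l
    exact (Finset.sum_eq_sum_iff_of_le (fun i _ => hle i)).mp hsum l (Finset.mem_univ l)
  refine ⟨hF.1, fun l _ => ?_⟩
  have hind : M.Indep (A' l ∩ F) := (hA'.1 l).indep.subset inter_subset_left
  have hb : M.IsBasis (A' l ∩ F) F := by
    apply hind.isBasis_of_eRk_ge (hfD l) inter_subset_right _ hF.1.subset_ground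
    rw [hind.eRk_eq_encard, ← (hbas l).encard_eq_eRk, ← (hfD l).cast_ncard_eq,
      ← (hfA l).cast_ncard_eq, heq l]
  rw [hb.closure_eq_closure, hF.1.closure]

/-- Reachability by all the bases depends only on the union of the bases. -/
theorem reach_univ_congr [Finite ι] [M.RankFinite] (hA : IsFam M A) (hA' : IsFam M A')
    (hU : (⋃ l, A' l) = ⋃ l, A l) {x y : α} (h : Reach M A univ x y) : Reach M A' univ x y := by
  refine ⟨?_, fun F hF hx => h.2 F (tight_univ_congr hA' hA hU.symm hF) hx⟩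
  obtain ⟨l, _, hl⟩ := h.1
  have h1 : y ∈ ⋃ l, A' l := by rw [hU]; exact mem_iUnion.mpr ⟨l, hl⟩
  obtain ⟨l', hl'⟩ := mem_iUnion.mp h1
  exact ⟨l', mem_univ _, hl'⟩

end Pool.Agent.WL
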