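import Pool.Agent.WL.CStep
import Pool.Agent.WL.Tools
import Pool.Agent.WL.Transfer

/-!
# WL/CProc: iteration of `c_step`

PROOF. Strong induction on `n`, for all `A, k, X, e` (with `x, y, w, J, Y` fixed).
If `¬ X ⊆ Y`: take `A' := A`, `k' := k`: `Reach M A (insert k J) x y`: `y ∈ A l`, `l ∈ J`; if `F` is
`insert k J`-tight and `x ∈ F`, then `X ⊆ F`; if `y ∉ F` then `F ⊆ Y` (`F` is `J`-tight), so `X ⊆ Y`.
If `X ⊆ Y`: `w ∉ X`; `walk_last` gives `m' < n`, `e' ∈ X`, `g ∉ X`, `Edge M A univ M.E e' g`,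
`Walk M A univ (M.E \ X) m' g w`; `edge_closure` gives `i` with `g ∈ A i`, `e' ∉ closure (A i \ {g})`.
`hr : M.eRk X ≤ m` from `X ⊆ Y`. `c_step` gives `A'` (and `i ∉ J`). Check for `A'`:
 * `X` is `insert k J`-tight for `A'` (`tight_of_change` with `T = F = X`), `Y` is `J`-tight for `A'`
   (`tight_of_change`, `X ⊆ Y`, with the index set `J`);
 * `y ∈ A' l` for the `l ∈ J` with `y ∈ A l` (as `y ∉ X` and `A' l \ X = A l \ X`);
 * greatest: `F` `J`-tight for `A'`, `y ∉ F`: `G := M.closure (F ∪ X)` is `J`-tight for `A'` (`tight_join`), `y ∉ G`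
   (`join_inter`), `X ⊆ G`, so `G` is `J`-tight for `A` (`tight_of_change`), so `F ⊆ G ⊆ Y`;
 * `x ∉ A' l` since `⋃ A' = ⋃ A`;
 * `Walk M A' univ M.E m' g w` by `walk_outside` (index set `insert k J`).
Let `X'` be the least `insert i J`-tight flat for `A'` containing `x` (`exists_least`); `g ∈ X'` by the last
claim of `c_step`. Apply the induction hypothesis to `m'`, `A'`, `i`, `X'`, `g`.
-/

set_option autoImplicit false

namespace Pool.Agent.WL

open Set Pool.Agent.WD

variable {α ι : Type*} {M : Matroid α}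

theorem c_process [DecidableEq ι] {p m : ℕ} (h : S1 α (p + 1) m) [M.RankFinite] {J : Finset ι}
    (hJ : J.card = p) {x y w : α} (hxl : x ∉ M.closure ∅) {Y : Set α} (hyY : y ∉ Y)
    (hwY : w ∉ Y) (hrY : M.eRk Y ≤ (m : ℕ∞)) (n : ℕ) :
    ∀ (A : ι → Set α) (k : ι) (X : Set α) (e : α), IsFam M A → (∀ l, x ∉ A l) →
      (∃ l ∈ J, y ∈ A l) → Tight M A (J : Set ι) Y →
      (∀ F, Tight M A (J : Set ι) F → y ∉ F → F ⊆ Y) → k ∉ J →
      Tight M A ((insert k J : Finset ι) : Set ι) X → x ∈ X →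
      (∀ F, Tight M A ((insert k J : Finset ι) : Set ι) F → x ∈ F → X ⊆ F) → e ∈ X →
      Walk M A univ M.E n e w →
      ∃ (A' : ι → Set α) (k' : ι), k' ∉ J ∧ IsFam M A' ∧ (⋃ l, A' l) = (⋃ l, A l) ∧
        Reach M A' ((insert k' J : Finset ι) : Set ι) x y := by
  induction n using Nat.strong_induction_on with
  | _ n ih =>
    intro A k X e hA hxA hyA hY hmax hk hX hxX hXmin heX hwalk
    have hJsub : (J : Set ι) ⊆ ((insert k J : Finset ι) : Set ι) := by
      intro l hl
      exact Finset.mem_coe.2 (Finset.mem_insert_of_mem (Finset.mem_coe.1 hl))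
    by_cases hXY : X ⊆ Y
    · have hwX : w ∉ X := fun h1 => hwY (hXY h1)
      obtain ⟨m', e', g, hm', he', hg, hedge, hwalk'⟩ := walk_last n e w hwalk heX hwX
      obtain ⟨_, _, i, _, hgi, _, heg⟩ := (edge_closure hA.1 Subset.rfl).1 hedge
      have hr : M.eRk X ≤ (m : ℕ∞) := (M.eRk_mono hXY).trans hrY
      have hJne : J.Nonempty := by
        obtain ⟨l, hl, _⟩ := hyA
        exact ⟨l, hl⟩
      obtain ⟨hiJ, A', hA', hU, h1, hc, hlast⟩ := c_step h hA hJ hJne hk hX hxX hXmin hr hxA hxl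
        he' hgi hg heg
      have hX' : Tight M A' ((insert k J : Finset ι) : Set ι) X :=
        (tight_of_change hA.1 hA'.1 hX hc Subset.rfl).1 hX
      have hXJ : Tight M A (J : Set ι) X := tight_mono hX hJsub
      have hXJ' : Tight M A' (J : Set ι) X := tight_mono hX' hJsub
      have hY' : Tight M A' (J : Set ι) Y := (tight_of_change hA.1 hA'.1 hXJ hc hXY).1 hY
      have hyX : y ∉ X := fun h2 => hyY (hXY h2)
      have hyA' : ∃ l ∈ J, y ∈ A' l := by
        obtain ⟨l, hl, hyl⟩ := hyA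
        have h2 : y ∈ A' l \ X := by
          rw [hc l]
          exact ⟨hyl, hyX⟩
        exact ⟨l, hl, h2.1⟩
      have hmax' : ∀ F, Tight M A' (J : Set ι) F → y ∉ F → F ⊆ Y := by
        intro F hF hyF
        have hG := tight_join hF hXJ'
        have hsub : F ∪ X ⊆ M.closure (F ∪ X) :=
          M.subset_closure _ (union_subset hF.1.subset_ground hXJ'.1.subset_ground)
        have hyG : y ∉ M.closure (F ∪ X) := by
          intro h2
          obtain ⟨l, hl, hyl⟩ := hyA'
          rcases join_inter hA'.1 hF hXJ' (Finset.mem_coe.2 hl) hyl h2 with h3 | h3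
          · exact hyF h3
          · exact hyX h3
        have hG' : Tight M A (J : Set ι) (M.closure (F ∪ X)) :=
          (tight_of_change hA.1 hA'.1 hXJ hc (subset_union_right.trans hsub)).2 hG
        exact (subset_union_left.trans hsub).trans (hmax _ hG' hyG)
      have hxA' : ∀ l, x ∉ A' l := by
        intro l hl
        have h2 : x ∈ ⋃ l, A' l := mem_iUnion.2 ⟨l, hl⟩
        rw [hU] at h2
        obtain ⟨l', hl'⟩ := mem_iUnion.1 h2
        exact hxA l' hl'
      have hwalk'' : Walk M A' univ M.E m' g w :=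
        walk_outside hA.1 hA'.1 Subset.rfl hX hX'
          (fun l hl => h1 l (fun h2 => hl (Finset.mem_coe.2 h2))) hc m' g w hwalk'
      obtain ⟨L, hL, hxL, hLmin⟩ := exists_least hA'.1 ((insert i J : Finset ι) : Set ι)
        (singleton_subset_iff.2 (hX.1.subset_ground hxX))
      have hxL' : x ∈ L := singleton_subset_iff.1 hxL
      obtain ⟨A'', k', hk', hA'', hU', hreach⟩ := ih m' hm' A' i L g hA' hxA' hyA' hY' hmax' hiJ
        hL hxL' (fun F hF hxF => hLmin F hF (singleton_subset_iff.2 hxF)) (hlast L hL hxL')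
        hwalk''
      exact ⟨A'', k', hk', hA'', hU'.trans hU, hreach⟩
    · refine ⟨A, k, hk, hA, rfl, ?_, ?_⟩
      · obtain ⟨l, hl, hyl⟩ := hyA
        exact ⟨l, hJsub (Finset.mem_coe.2 hl), hyl⟩
      · intro F hF hxF
        by_contra hyF
        exact hXY ((hXmin F hF hxF).trans (hmax F (tight_mono hF hJsub) hyF))

end Pool.Agent.WL
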