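import Pool.Agent.WL.Relative

/-!
# WL/CStep: one step near the source `x`

PROOF. `i ∉ insert k J`: otherwise `mem_of_tight hX _ he heg : g ∈ X`. Pick `l₀ ∈ J` (`hJne`). As
`X = closure (A l₀ ∩ X)` and `e ∈ X`, `e ∉ closure (A i \ {g})`, there is `e' ∈ A l₀ ∩ X` with
`e' ∉ closure (A i \ {g})`. Apply `relative h hA` with the index set `insert k J` (card `p + 1`), `T := M.closure ∅`
(`tight_loops`), `X`, `x`, `y := e'`, omitted index `k`: `hr`: `M.eRk (M.closure ∅) = 0`; `e'` is not a loop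
since it lies in a base; `hxy` from `hXmin`. Get `A'`.
`A' l \ X = A l \ X`: from `A' l \ (X \ T) = A l \ (X \ T)`.
Last claim: `F` is `insert i J`-tight for `A'`, `x ∈ F`: it is `↑(insert k J) \ {k}`-tight (`tight_mono`,
this set is contained in `J`), contains the loops (a flat), so `e' ∈ F`; `A' i = A i`, so
`mem_of_tight` gives `g ∈ F`.
-/

set_option autoImplicit false

namespace Pool.Agent.WL

open Set Pool.Agent.WD

variable {α ι : Type*} {M : Matroid α}

theorem c_step [DecidableEq ι] {p m : ℕ} (h : S1 α (p + 1) m) [M.RankFinite] {A : ι → Set α}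
    (hA : IsFam M A) {J : Finset ι} (hJ : J.card = p) (hJne : J.Nonempty) {k : ι} (hk : k ∉ J)
    {x : α} {X : Set α} (hX : Tight M A ((insert k J : Finset ι) : Set ι) X) (hxX : x ∈ X)
    (hXmin : ∀ F, Tight M A ((insert k J : Finset ι) : Set ι) F → x ∈ F → X ⊆ F)
    (hr : M.eRk X ≤ (m : ℕ∞)) (hxA : ∀ l, x ∉ A l) (hxl : x ∉ M.closure ∅) {e g : α} {i : ι}
    (he : e ∈ X) (hgi : g ∈ A i) (hgX : g ∉ X) (heg : e ∉ M.closure (A i \ {g})) :
    i ∉ J ∧ ∃ A' : ι → Set α, IsFam M A' ∧ (⋃ l, A' l) = (⋃ l, A l) ∧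
      (∀ l, l ∉ insert k J → A' l = A l) ∧ (∀ l, A' l \ X = A l \ X) ∧
      ∀ F, Tight M A' ((insert i J : Finset ι) : Set ι) F → x ∈ F → g ∈ F := by
  have hi : i ∉ insert k J := by
    intro hi
    exact hgX (mem_of_tight hX (Finset.mem_coe.mpr hi) he heg)
  have hiJ : i ∉ J := fun h1 => hi (Finset.mem_insert_of_mem h1)
  refine ⟨hiJ, ?_⟩
  obtain ⟨l₀, hl₀⟩ := hJne
  have hl₀' : l₀ ∈ insert k J := Finset.mem_insert_of_mem hl₀
  -- an element of `A l₀ ∩ X` outside the hyperplane
  obtain ⟨e', he'A, he'X, he'g⟩ : ∃ e', e' ∈ A l₀ ∧ e' ∈ X ∧ e' ∉ M.closure (A i \ {g}) := by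
    by_contra hcon
    push Not at hcon
    apply heg
    have h1 : A l₀ ∩ X ⊆ M.closure (A i \ {g}) := fun u hu => hcon u hu.1 hu.2
    have h2 := M.closure_subset_closure_of_subset_closure h1
    rw [hX.2 l₀ (Finset.mem_coe.mpr hl₀')] at h2
    exact h2 he
  have hcard : (insert k J).card = p + 1 := by rw [Finset.card_insert_of_notMem hk, hJ]
  have hlX : M.closure ∅ ⊆ X := by
    have h1 := M.closure_subset_closure (empty_subset X)
    rwa [hX.1.closure] at h1
  have he'l : e' ∉ M.closure ∅ := by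
    intro h1
    exact (hA.1 l₀).indep.notMem_closure_sdiff_of_mem he'A
      (M.closure_subset_closure (empty_subset _) h1)
  have hr' : M.eRk X ≤ M.eRk (M.closure ∅) + (m : ℕ∞) := by
    rw [M.eRk_closure_eq, M.eRk_empty, zero_add]
    exact hr
  obtain ⟨A', hA', hU, hout, hdiff, hyA', hlast⟩ :=
    relative h hA hcard (tight_loops (J := ((insert k J : Finset ι) : Set ι))) hX hlX hr'
      (x := x) (y := e') ⟨hxX, hxl⟩ (fun l _ => hxA l) he'l ⟨l₀, hl₀', he'A⟩
      (fun F hF _ hxF => hXmin F hF hxF he'X) (Finset.mem_insert_self k J)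
  refine ⟨A', hA', hU, hout, fun l => ?_, fun F hF hxF => ?_⟩
  · have h3 : ∀ S : Set α, (S \ (X \ M.closure ∅)) \ X = S \ X := by
      intro S
      ext u
      simp only [mem_sdiff]
      tauto
    rw [← h3 (A' l), hdiff l, h3 (A l)]
  · have hsub : ((insert k J : Finset ι) : Set ι) \ {k} ⊆ ((insert i J : Finset ι) : Set ι) := by
      intro l hl
      have h1 := Finset.mem_coe.mp hl.1
      rw [Finset.mem_insert] at h1
      rw [Finset.mem_coe, Finset.mem_insert]
      exact Or.inr (h1.resolve_left fun h2 => hl.2 (by rw [h2]; rfl))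
    have hF1 := tight_mono hF hsub
    have hlF : M.closure ∅ ⊆ F := by
      have h1 := M.closure_subset_closure (empty_subset F)
      rwa [hF.1.closure] at h1
    have he'F : e' ∈ F := hlast F hF1 hlF hxF
    have heg' : e' ∉ M.closure (A' i \ {g}) := by
      rw [hout i hi]
      exact he'g
    exact mem_of_tight hF (by simp) he'F heg'

end Pool.Agent.WL
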