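import Pool.Agent.WL.DProc
import Pool.Agent.WL.CProc

/-!
# WL/Combine: the main recursion `(S1_p in rank m) and (S1_(p+1) in rank m₁) imply (S1_(p+2) in rank
m + m₁ + 1)`

PROOF. Let `M, A, x, y` be given, `A : Fin (p + 2) → Set α`. `M.RankFinite` because `M.eRank` is finite.
`y ∈ A l₀`. Choose a finset `J ∋ l₀` of cardinality `p` (`Finset.exists_subsuperset_card_eq`).
`d_process h0` gives `A', J'`. Every `J₂ : Finset (Fin (p + 2))` of cardinality `≤ p + 1` omits some
`k₀`, and `Reach.mono` gives `Reach M A' {k₀}ᶜ x y` from `Reach M A' J₂ x y`. In the first case of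
`d_process` take `J₂ := J'`. In the second case `M.eRk Y + m + 1 ≤ m + m₁ + 1`, so `M.eRk Y ≤ m₁`
(`ENat` cancellation). Choose `k ∉ J'`; `X` := least `insert k J'`-tight flat (for `A'`) containing `x`;
`Reach M A' univ x y` (`reach_univ_congr`), `exists_walk_univ`; apply `c_process` with `w := y`, `e := x`;
`x` is not a loop (`Reach.notMem_loops`); `x ∉ A' l` since the unions are the same.
-/

set_option autoImplicit false

namespace Pool.Agent.WL

open Set Pool.Agent.WD

variable {α : Type*}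

theorem S1.combine {p m m₁ : ℕ} (hp : 1 ≤ p) (h0 : S1 α p m) (h1 : S1 α (p + 1) m₁) :
    S1 α (p + 2) (m + m₁ + 1) := by
  classical
  intro M A x y hM hA hx hxA hr
  haveI : M.RankFinite := by
    rw [← Matroid.eRank_lt_top_iff]
    exact lt_of_le_of_lt hM (ENat.coe_lt_top _)
  obtain ⟨l₀, _, hyl₀⟩ := hr.1
  obtain ⟨J, hJ1, _, hJ⟩ := Finset.exists_subsuperset_card_eq
    (s := {l₀}) (t := (Finset.univ : Finset (Fin (p + 2)))) (n := p)
    (Finset.subset_univ _) (by rw [Finset.card_singleton]; exact hp)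
    (by rw [Finset.card_univ, Fintype.card_fin]; omega)
  have hlJ : l₀ ∈ J := hJ1 (Finset.mem_singleton_self _)
  -- a set of at most `p + 1` indices omits some index
  have hsk : ∀ (B : Fin (p + 2) → Set α) (J₂ : Finset (Fin (p + 2))), J₂.card ≤ p + 1 →
      Reach M B (J₂ : Set (Fin (p + 2))) x y → ∃ k, Reach M B {k}ᶜ x y := by
    intro B J₂ hJ₂ hB
    have h1 : ∃ k, k ∉ J₂ := by
      by_contra hcon
      push Not at hcon
      have h2 : J₂ = Finset.univ := Finset.eq_univ_iff_forall.2 hcon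
      rw [h2, Finset.card_univ, Fintype.card_fin] at hJ₂
      omega
    obtain ⟨k, hk⟩ := h1
    refine ⟨k, hB.mono fun l hl => ?_⟩
    intro hlk
    rw [mem_singleton_iff] at hlk
    rw [hlk] at hl
    exact hk (Finset.mem_coe.1 hl)
  obtain ⟨A', J', hA', hU, hJ', hy', hcase⟩ := d_process h0 hA hJ hx hr ⟨l₀, hlJ, hyl₀⟩
  rcases hcase with hR | ⟨Y, hY, hyY, hxY, hmax, hrk⟩
  · obtain ⟨k, hk⟩ := hsk A' J' (by omega) hR
    exact ⟨A', k, hA', hU, hk⟩
  · have hrY : M.eRk Y ≤ (m₁ : ℕ∞) := by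
      have h2 : M.eRk Y + (m : ℕ∞) + 1 ≤ ((m + m₁ + 1 : ℕ) : ℕ∞) := hrk.trans hM
      have h3 : M.eRk Y ≠ ⊤ := by
        intro h
        rw [h] at h2
        simp at h2
      obtain ⟨r, hr'⟩ := ENat.ne_top_iff_exists.1 h3
      rw [← hr'] at h2 ⊢
      have h4 : r + m + 1 ≤ m + m₁ + 1 := by exact_mod_cast h2
      exact_mod_cast (by omega : r ≤ m₁)
    have h5 : ∃ k, k ∉ J' := by
      by_contra hcon
      push Not at hcon
      have h2 : J' = Finset.univ := Finset.eq_univ_iff_forall.2 hcon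
      rw [h2, Finset.card_univ, Fintype.card_fin] at hJ'
      omega
    obtain ⟨k, hk⟩ := h5
    obtain ⟨X, hX, hXx, hXmin⟩ := exists_least hA'.1
      ((insert k J' : Finset (Fin (p + 2))) : Set (Fin (p + 2))) (X := {x})
      (singleton_subset_iff.2 hx)
    rw [singleton_subset_iff] at hXx
    have hr2 : Reach M A' univ x y := reach_univ_congr hA hA' hU hr
    obtain ⟨n, hn⟩ := exists_walk_univ hA'.1 hx hr2
    have hxA' : ∀ l, x ∉ A' l := by
      intro l hl
      have h6 : x ∈ ⋃ l, A' l := mem_iUnion.2 ⟨l, hl⟩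
      rw [hU, mem_iUnion] at h6
      obtain ⟨l', hl'⟩ := h6
      exact hxA l' hl'
    obtain ⟨A'', k', hk', hA'', hU', hR⟩ := c_process h1 hJ' (hr.notMem_loops hA.1) hyY hyY hrY n
      A' k X x hA' hxA' hy' hY hmax hk hX hXx
      (fun F hF hxF => hXmin F hF (singleton_subset_iff.2 hxF)) hXx hn
    obtain ⟨k₂, hk₂⟩ := hsk A'' (insert k' J') (by
      rw [Finset.card_insert_of_notMem hk', hJ']) hR
    exact ⟨A'', k₂, hA'', hU'.trans hU, hk₂⟩

end Pool.Agent.WL
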