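import Pool.Agent.WL.DStep
import Pool.Agent.WL.Tools

/-!
# WL/DProc: iteration of `d_step`

PROOF. Inner claim, by strong induction on `n`, for all `A, J, Y, e, v, i`: if `IsFam M A`, `J.card = p`,
`∃ l ∈ J, y ∈ A l`, `Y` the greatest `J`-tight flat not containing `y`, `x ∈ Y`, `Walk M A univ Y n x e`,
`e ∈ Y`, `v ∈ A i`, `v ∉ Y`, `e ∉ closure (A i \ {v})`, then the conclusion (with `⋃ A' = ⋃ A`).
If `¬ M.eRank ≤ M.eRk Y + m` take `A' := A`, `J' := J` (`M.eRk Y + m < M.eRank` gives `+ 1 ≤`,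
`Order.add_one_le_of_lt`). Otherwise `d_step` gives `A', J'`. Let `Y'` be the greatest `J'`-tight
flat (for `A'`) not containing `y` (`exists_greatest`); `e ∉ Y'` (else `y ∈ Y'`). If `x ∉ Y'` then
`Reach M A' J' x y`: a `J'`-tight `F ∋ x` with `y ∉ F` would be contained in `Y'`. If `x ∈ Y'`,
`walk_exit` (for the walk in `Y` from `x ∈ Y'` to `e ∉ Y'`) gives `m' < n`, `e'`, `v'` with
`Walk M A' univ (Y ∩ Y') m' x e'` (so in `Y'`, `walk_mono`), `e' ∈ Y'`, `Edge M A' univ Y e' v'`,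
`v' ∉ Y'`; `edge_closure` gives the index; induction.
Start: `exists_greatest` for `A, J`; `x ∉ Y`: as above. `x ∈ Y`: `exists_walk_univ`, `walk_exit` (`y ∉ Y`).
-/

set_option autoImplicit false

namespace Pool.Agent.WL

open Set Pool.Agent.WD

variable {α ι : Type*} {M : Matroid α}

private theorem d_process_aux [DecidableEq ι] {p m : ℕ} (h : S1 α p m) [M.RankFinite] {x y : α}
    (n : ℕ) : ∀ (A : ι → Set α) (J : Finset ι) (Y : Set α) (e v : α) (i : ι),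
      IsFam M A → J.card = p → (∃ l ∈ J, y ∈ A l) → Tight M A (J : Set ι) Y → y ∉ Y →
      (∀ F, Tight M A (J : Set ι) F → y ∉ F → F ⊆ Y) → x ∈ Y → Walk M A univ Y n x e →
      e ∈ Y → v ∈ A i → v ∉ Y → e ∉ M.closure (A i \ {v}) →
      ∃ (A' : ι → Set α) (J' : Finset ι), IsFam M A' ∧ (⋃ l, A' l) = (⋃ l, A l) ∧
      J'.card = p ∧ (∃ l ∈ J', y ∈ A' l) ∧
      (Reach M A' (J' : Set ι) x y ∨
        ∃ Y, Tight M A' (J' : Set ι) Y ∧ y ∉ Y ∧ x ∈ Y ∧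
          (∀ F, Tight M A' (J' : Set ι) F → y ∉ F → F ⊆ Y) ∧
          M.eRk Y + (m : ℕ∞) + 1 ≤ M.eRank) := by
  induction n using Nat.strong_induction_on with
  | _ n ih =>
  intro A J Y e v i hA hJ hyA hY hyY hYmax hxY hw heY hvi hvY hev
  by_cases hr : M.eRank ≤ M.eRk Y + (m : ℕ∞)
  · obtain ⟨A', J', hA', hU, hJ', hyA', hw', hlast⟩ :=
      d_step h hA hJ hY hyA hyY hYmax hr hw heY hvi hvY hev
    obtain ⟨Y', hY', hyY', hYmax'⟩ := exists_greatest hA'.1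
      (J := (J' : Set ι)) (y := y) (by
        obtain ⟨l, hl, hyl⟩ := hyA'
        exact ⟨l, Finset.mem_coe.mpr hl, hyl⟩)
    have heY' : e ∉ Y' := fun h1 => hyY' (hlast Y' hY' h1)
    by_cases hxY' : x ∈ Y'
    · obtain ⟨m', e', v', hm', hw'', he'Y', hE, hv'Y'⟩ := walk_exit n x e hw' hxY' heY'
      obtain ⟨-, -, l, -, hv'l, -, hcl⟩ := (edge_closure hA'.1 hY.1.subset_ground).1 hE
      obtain ⟨A'', J'', h1, h2, h3, h4, h5⟩ := ih m' hm' A' J' Y' e' v' l hA' hJ' hyA' hY' hyY'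
        hYmax' hxY' (walk_mono inter_subset_right m' x e' hw'') he'Y' hv'l hv'Y' hcl
      exact ⟨A'', J'', h1, h2.trans hU, h3, h4, h5⟩
    · refine ⟨A', J', hA', hU, hJ', hyA', Or.inl ⟨?_, ?_⟩⟩
      · obtain ⟨l, hl, hyl⟩ := hyA'
        exact ⟨l, Finset.mem_coe.mpr hl, hyl⟩
      · intro F hF hxF
        by_contra hyF
        exact hxY' (hYmax' F hF hyF hxF)
  · refine ⟨A, J, hA, rfl, hJ, hyA, Or.inr ⟨Y, hY, hyY, hxY, hYmax, ?_⟩⟩
    exact Order.add_one_le_of_lt (not_le.mp hr)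

theorem d_process [DecidableEq ι] {p m : ℕ} (h : S1 α p m) [M.RankFinite] {A : ι → Set α}
    (hA : IsFam M A) {J : Finset ι} (hJ : J.card = p) {x y : α} (hx : x ∈ M.E)
    (hxy : Reach M A univ x y) (hy : ∃ l ∈ J, y ∈ A l) :
    ∃ (A' : ι → Set α) (J' : Finset ι), IsFam M A' ∧ (⋃ l, A' l) = (⋃ l, A l) ∧
      J'.card = p ∧ (∃ l ∈ J', y ∈ A' l) ∧
      (Reach M A' (J' : Set ι) x y ∨
        ∃ Y, Tight M A' (J' : Set ι) Y ∧ y ∉ Y ∧ x ∈ Y ∧
          (∀ F, Tight M A' (J' : Set ι) F → y ∉ F → F ⊆ Y) ∧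
          M.eRk Y + (m : ℕ∞) + 1 ≤ M.eRank) := by
  obtain ⟨Y, hY, hyY, hYmax⟩ := exists_greatest hA.1
    (J := (J : Set ι)) (y := y) (by
      obtain ⟨l, hl, hyl⟩ := hy
      exact ⟨l, Finset.mem_coe.mpr hl, hyl⟩)
  by_cases hxY : x ∈ Y
  · obtain ⟨n, hn⟩ := exists_walk_univ hA.1 hx hxy
    obtain ⟨m', e, v, -, hw, heY, hE, hvY⟩ := walk_exit n x y hn hxY hyY
    obtain ⟨-, -, l, -, hvl, -, hcl⟩ := (edge_closure hA.1 subset_rfl).1 hE
    exact d_process_aux h m' A J Y e v l hA hJ hy hY hyY hYmax hxY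
      (walk_mono inter_subset_right m' x e hw) heY hvl hvY hcl
  · refine ⟨A, J, hA, rfl, hJ, hy, Or.inl ⟨?_, ?_⟩⟩
    · obtain ⟨l, hl, hyl⟩ := hy
      exact ⟨l, Finset.mem_coe.mpr hl, hyl⟩
    · intro F hF hxF
      by_contra hyF
      exact hxY (hYmax F hF hyF hxF)

end Pool.Agent.WL
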