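import Pool.Agent.WL.Relative
import Pool.Agent.WL.Transfer
import Pool.Agent.WD.Reach

/-!
# WL/DStep: one step near the target `y`

PROOF. `i ∉ J`: otherwise `mem_of_tight hY hi heY hev : v ∈ Y`. `X` := least `J`-tight flat containing
`insert v Y` (`exists_least`). `y ∈ X` (otherwise `X ⊆ Y` by `hYmax`, but `v ∈ X`, `v ∉ Y`). `v ∉ A l` for `l ∈ J`
(disjointness, `v ∈ A i`, `i ∉ J`). Let `k ∈ J` (`hyA`). Apply `relative h hA hJ` with `T := Y`, `X`,
`x := v`, `y`, `k`: `hr`: `M.eRk X ≤ M.eRank ≤ M.eRk Y + m`; `hxy`: if `F` is `J`-tight, `v ∈ F`, `y ∉ F` then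
`F ⊆ Y`, contradiction. We get `A'`; put `J' := insert i (J.erase k)`.
Walk: `walk_inside` with `J`, `Y`: `A' l ∩ Y = A l ∩ Y` because `A' l \ (X \ Y) = A l \ (X \ Y)`.
Last claim: `F` is `J'`-tight for `A'`, `e ∈ F`. `A' i = A i`, so `v ∈ F` by `mem_of_tight`. `Y` is `J \ {k}`-tight
for `A'`; `G := M.closure (F ∪ Y)` is `J \ {k}`-tight for `A'` (`tight_join`), `Y ⊆ G`, `v ∈ G`, so `y ∈ G`, and
`join_inter` (for an `l ∈ J \ {k}` with `y ∈ A' l`) gives `y ∈ F ∪ Y`, so `y ∈ F`.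
-/

set_option autoImplicit false

namespace Pool.Agent.WL

open Set Pool.Agent.WD

variable {α ι : Type*} {M : Matroid α}

theorem d_step [DecidableEq ι] {p m : ℕ} (h : S1 α p m) [M.RankFinite] {A : ι → Set α}
    (hA : IsFam M A) {J : Finset ι} (hJ : J.card = p) {x y e v : α} {Y : Set α}
    (hY : Tight M A (J : Set ι) Y) (hyA : ∃ l ∈ J, y ∈ A l) (hyY : y ∉ Y)
    (hYmax : ∀ F, Tight M A (J : Set ι) F → y ∉ F → F ⊆ Y)
    (hr : M.eRank ≤ M.eRk Y + (m : ℕ∞)) {n : ℕ} (hw : Walk M A univ Y n x e) (heY : e ∈ Y)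
    {i : ι} (hvi : v ∈ A i) (hvY : v ∉ Y) (hev : e ∉ M.closure (A i \ {v})) :
    ∃ (A' : ι → Set α) (J' : Finset ι), IsFam M A' ∧ (⋃ l, A' l) = (⋃ l, A l) ∧
      J'.card = p ∧ (∃ l ∈ J', y ∈ A' l) ∧ Walk M A' univ Y n x e ∧
      ∀ F, Tight M A' (J' : Set ι) F → e ∈ F → y ∈ F := by
  have hiJ : i ∉ J := by
    intro hi
    exact hvY (mem_of_tight hY (Finset.mem_coe.mpr hi) heY hev)
  have hvE : v ∈ M.E := (hA.1 i).subset_ground hvi
  have hYE : Y ⊆ M.E := hY.1.subset_ground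
  obtain ⟨X, hX, hXs, hXmin⟩ :=
    exists_least hA.1 (J : Set ι) (X := insert v Y) (insert_subset hvE hYE)
  have hvX : v ∈ X := hXs (mem_insert _ _)
  have hYX : Y ⊆ X := (subset_insert _ _).trans hXs
  have hvA : ∀ l ∈ J, v ∉ A l := by
    intro l hl hvl
    have hne : i ≠ l := fun h => hiJ (h ▸ hl)
    exact (disjoint_left.mp (hA.2 hne)) hvi hvl
  obtain ⟨k, hk, hyk⟩ := hyA
  have hr' : M.eRk X ≤ M.eRk Y + (m : ℕ∞) := (M.eRk_le_eRank X).trans hr
  obtain ⟨A', hA', hU, hout, hdiff, hyA', hlast⟩ :=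
    relative h hA hJ hY hX hYX hr' (x := v) (y := y) ⟨hvX, hvY⟩ hvA hyY ⟨k, hk, hyk⟩
      (fun F hF _ hvF => by
        by_contra hyF
        exact hvY (hYmax F hF hyF hvF)) hk
  have hinY : ∀ l, A' l ∩ Y = A l ∩ Y := by
    intro l
    ext u
    constructor
    · rintro ⟨hu, huY⟩
      have h1 : u ∈ A' l \ (X \ Y) := ⟨hu, fun h2 => h2.2 huY⟩
      rw [hdiff l] at h1
      exact ⟨h1.1, huY⟩
    · rintro ⟨hu, huY⟩
      have h1 : u ∈ A l \ (X \ Y) := ⟨hu, fun h2 => h2.2 huY⟩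
      rw [← hdiff l] at h1
      exact ⟨h1.1, huY⟩
  refine ⟨A', insert i (J.erase k), hA', hU, ?_, ?_, ?_, ?_⟩
  · rw [Finset.card_insert_of_notMem (fun h1 => hiJ (Finset.mem_of_mem_erase h1)),
      Finset.card_erase_of_mem hk, ← hJ]
    have := Finset.card_pos.mpr ⟨k, hk⟩
    omega
  · obtain ⟨l, hl, hyl⟩ := hyA'
    refine ⟨l, ?_, hyl⟩
    rw [Finset.mem_insert, Finset.mem_erase]
    exact Or.inr ⟨fun h1 => hl.2 (by rw [h1]; rfl), Finset.mem_coe.mp hl.1⟩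
  · exact walk_inside hA.1 hA'.1 hY (fun l hl => hout l (fun h1 => hl (Finset.mem_coe.mpr h1)))
      hinY n x e hw
  · intro F hF heF
    have hvF : v ∈ F := by
      have hev' : e ∉ M.closure (A' i \ {v}) := by
        rw [hout i hiJ]
        exact hev
      exact mem_of_tight hF (by simp) heF hev'
    have hsub : (J : Set ι) \ {k} ⊆ ((insert i (J.erase k) : Finset ι) : Set ι) := by
      intro l hl
      rw [Finset.mem_coe, Finset.mem_insert, Finset.mem_erase]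
      exact Or.inr ⟨fun h1 => hl.2 (by rw [h1]; rfl), Finset.mem_coe.mp hl.1⟩
    have hF1 : Tight M A' ((J : Set ι) \ {k}) F := tight_mono hF hsub
    have hY1 : Tight M A' ((J : Set ι) \ {k}) Y := by
      refine ⟨hY.1, fun l hl => ?_⟩
      rw [hinY l]
      exact hY.2 l hl.1
    have hG := tight_join hF1 hY1
    have hFYE : F ∪ Y ⊆ M.E := union_subset hF.1.subset_ground hYE
    have hss := M.subset_closure (F ∪ Y) hFYE
    have hyG : y ∈ M.closure (F ∪ Y) :=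
      hlast _ hG (subset_union_right.trans hss) (hss (Or.inl hvF))
    obtain ⟨l, hl, hyl⟩ := hyA'
    rcases join_inter hA'.1 hF1 hY1 hl hyl hyG with h1 | h1
    · exact h1
    · exact absurd h1 hyY

end Pool.Agent.WL
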