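import Pool.Agent.WL.Defs

/-!
# WL/Index: (S1) for a finite set of indices, with a prescribed omitted index

PROOF. `e : J ≃ Fin p` (`Finset.equivFinOfCardEq hJ`), `B i := A (e.symm i)`.
`Tight M B univ F ↔ Tight M A J F` (unfold), so `Reach M B univ x y`. Apply `h` to `M, B`: get
`B'` and `k'`. Let `B'' := B' ∘ Equiv.swap (e ⟨k, hk⟩) k'` (again a family of disjoint bases with
the same union), so `Reach M B'' {e ⟨k, hk⟩}ᶜ x y`. Put `A' l := if hl : l ∈ J then B'' (e ⟨l, hl⟩)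
else A l`.
-/

set_option autoImplicit false

namespace Pool.Agent.WL

open Set Pool.Agent.WD

variable {α ι : Type*}

theorem S1.finset [DecidableEq ι] {p m : ℕ} (h : S1 α p m) {M : Matroid α}
    (hM : M.eRank ≤ (m : ℕ∞)) {A : ι → Set α} {J : Finset ι} (hJ : J.card = p)
    (hB : ∀ l ∈ J, M.IsBase (A l)) (hd : (J : Set ι).PairwiseDisjoint A) {x y : α}
    (hx : x ∈ M.E) (hxA : ∀ l ∈ J, x ∉ A l) (hr : Reach M A (J : Set ι) x y) {k : ι}
    (hk : k ∈ J) :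
    ∃ A' : ι → Set α, (∀ l ∈ J, M.IsBase (A' l)) ∧ (J : Set ι).PairwiseDisjoint A' ∧
      (⋃ l ∈ J, A' l) = (⋃ l ∈ J, A l) ∧ (∀ l, l ∉ J → A' l = A l) ∧
      Reach M A' ((J : Set ι) \ {k}) x y := by
  classical
  let e : J ≃ Fin p := J.equivFinOfCardEq hJ
  have hunJ : ∀ (C : ι → Set α) (D : Fin p → Set α) (τ : J ≃ Fin p), (∀ l : J, C l = D (τ l)) →
      (⋃ l ∈ J, C l) = ⋃ i, D i := by
    intro C D τ hCD
    ext z
    simp only [mem_iUnion, exists_prop]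
    constructor
    · rintro ⟨l, hl, hz⟩
      exact ⟨τ ⟨l, hl⟩, by rw [← hCD ⟨l, hl⟩]; exact hz⟩
    · rintro ⟨i, hz⟩
      refine ⟨τ.symm i, (τ.symm i).2, ?_⟩
      rw [hCD (τ.symm i), Equiv.apply_symm_apply]
      exact hz
  have hFam : IsFam M (fun i : Fin p => A (e.symm i)) := by
    refine ⟨fun i => hB _ (e.symm i).2, ?_⟩
    intro i j hij
    refine hd (Finset.mem_coe.2 (e.symm i).2) (Finset.mem_coe.2 (e.symm j).2) ?_
    intro h
    exact hij (e.symm.injective (Subtype.ext h))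
  have hR : Reach M (fun i : Fin p => A (e.symm i)) univ x y := by
    obtain ⟨⟨l, hl, hy⟩, h2⟩ := hr
    refine ⟨⟨e ⟨l, Finset.mem_coe.1 hl⟩, mem_univ _, ?_⟩, ?_⟩
    · beta_reduce
      rw [Equiv.symm_apply_apply]
      exact hy
    · intro F hF hxF
      refine h2 F ⟨hF.1, fun l hl => ?_⟩ hxF
      have := hF.2 (e ⟨l, Finset.mem_coe.1 hl⟩) (mem_univ _)
      beta_reduce at this
      rwa [Equiv.symm_apply_apply] at this
  obtain ⟨B', k', hfam', hun', hr'⟩ := h M (fun i : Fin p => A (e.symm i)) x y hM hFam hx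
    (fun i => hxA _ (e.symm i).2) hR
  let τ : J ≃ Fin p := e.trans (Equiv.swap (e ⟨k, hk⟩) k')
  have hτk : τ ⟨k, hk⟩ = k' := by
    show Equiv.swap (e ⟨k, hk⟩) k' (e ⟨k, hk⟩) = k'
    exact Equiv.swap_apply_left _ _
  let A' : ι → Set α := fun l => if hl : l ∈ J then B' (τ ⟨l, hl⟩) else A l
  have hA' : ∀ l : J, A' l = B' (τ l) := by
    intro l
    show (if hl : (l : ι) ∈ J then B' (τ ⟨l, hl⟩) else A l) = B' (τ l)
    rw [dif_pos l.2]
  have hback : ∀ i, i ≠ k' → ((τ.symm i : J) : ι) ∈ (J : Set ι) \ {k} ∧ A' (τ.symm i) = B' i := by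
    intro i hi
    refine ⟨⟨(τ.symm i).2, ?_⟩, ?_⟩
    · intro h
      apply hi
      have h' : τ.symm i = ⟨k, hk⟩ := Subtype.ext h
      rw [← hτk, ← h', Equiv.apply_symm_apply]
    · rw [hA', Equiv.apply_symm_apply]
  refine ⟨A', ?_, ?_, ?_, ?_, ?_, ?_⟩
  · intro l hl
    rw [hA' ⟨l, hl⟩]
    exact hfam'.1 _
  · intro l hl l' hl' hne
    show Disjoint (A' l) (A' l')
    rw [hA' ⟨l, hl⟩, hA' ⟨l', hl'⟩]
    refine hfam'.2 ?_
    intro h
    exact hne (congrArg Subtype.val (τ.injective h))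
  · rw [hunJ A' B' τ hA', hun']
    exact (hunJ A (fun i : Fin p => A (e.symm i)) e (fun l => by rw [Equiv.symm_apply_apply])).symm
  · intro l hl
    show (if hl : l ∈ J then B' (τ ⟨l, hl⟩) else A l) = A l
    rw [dif_neg hl]
  · obtain ⟨⟨i, hi, hy⟩, -⟩ := hr'
    obtain ⟨h1, h2⟩ := hback i hi
    exact ⟨_, h1, by rw [h2]; exact hy⟩
  · intro F hF hxF
    refine hr'.2 F ⟨hF.1, fun i hi => ?_⟩ hxF
    obtain ⟨h1, h2⟩ := hback i hi
    rw [← h2]
    exact hF.2 _ h1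

end Pool.Agent.WL
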