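import Pool.Agent.WL.Core
import Pool.Agent.WL.Lucas
import Pool.Agent.WD.Main

set_option autoImplicit false

namespace Pool.Agent.WL

open Pool.Agent.H94 Pool.Agent.WD

/-- For a finite matroid `M` of positive rank and a field `K`, the toric ideal of `M` is generated
in degree at most `d` if `min (rank M) (rank M✶)` is less than the Lucas number
`L_d = fib (d - 1) + fib (d + 1)`. -/
theorem main {α : Type*} (K : Type*) [Field K] (M : Matroid α) [M.Finite] [M.RankPos]
    (d : ℕ) (hd : 1 ≤ d)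
    (hr : min M.eRank M✶.eRank + 1 ≤ ((Nat.fib (d - 1) + Nat.fib (d + 1) : ℕ) : ℕ∞)) :
    toricIdeal K M =
      Ideal.span {f | f ∈ toricIdeal K M ∧ ∃ n ≤ d, f.IsHomogeneous n} := by
  classical
  obtain ⟨m, hm⟩ : ∃ m, m + 1 = Nat.fib (d - 1) + Nat.fib (d + 1) := by
    have h : 0 < Nat.fib (d + 1) := Nat.fib_pos.mpr (Nat.succ_pos d)
    exact ⟨Nat.fib (d - 1) + Nat.fib (d + 1) - 1, by omega⟩
  have hS : ∀ q, d ≤ q → S1 (α × ℕ) q m := S1_lucas_all hd hm.le
  have hr' : min M.eRank M✶.eRank ≤ (m : ℕ∞) := by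
    rw [← hm] at hr
    push_cast at hr
    exact (ENat.add_le_add_iff_right ENat.one_ne_top).mp hr
  rcases min_le_iff.mp hr' with h | h
  · exact toric_of_shareConn M (shareConn_of_S1 hd hS h)
  · exact toric_of_shareConn M (shareConn_of_dual M (shareConn_of_S1 hd hS h))

end Pool.Agent.WL
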