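import Pool.Agent.WL.Defs

/-!
# WL/Minor: bases and tight flats of the minor `(M ／ T) ↾ (X \ T)`

`rel M T X := (M ／ T) ↾ (X \ T)`.
* `rel_isBase_iff`: `(M ↾ R).IsBase B ↔ M.IsBasis B R` (for `R ⊆ M.E`), and for `M.IsBasis I T`:
  `(M ／ T).Indep D ↔ Disjoint D T ∧ M.Indep (D ∪ I)` (`IsBasis.contract_indep_iff` or similar,
  search Mathlib.Combinatorics.Matroid.Minor.Contract). `D ∪ I` is then a maximal independent
  subset of `X` (or use closures: `X ⊆ closure (D ∪ I)` iff `X \ T ⊆ (M ／ T).closure D`,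
  `contract_closure_eq : (M ／ C).closure X = M.closure (X ∪ C) \ C`,
  and `closure (D ∪ T) = closure (D ∪ I)`).
* `rel_closure`: `restrict_closure_eq` and `contract_closure_eq`.
* `rel_tight_iff`: `G` is a flat of `rel M T X` iff `(rel M T X).closure G = G` iff
  `closure (G ∪ T) ∩ X \ T = G` iff `closure (G ∪ T) = G ∪ T` (as `closure (G ∪ T) ⊆ X`, `X` being a
  flat, and `T ⊆ closure (G ∪ T)`). For `l ∈ J`: `closure' (A l ∩ (X \ T) ∩ G) =
  (closure ((A l ∩ G) ∪ T)) \ T` and `closure ((A l ∩ G) ∪ T) = closure ((A l ∩ G) ∪ (A l ∩ T)) =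
  closure (A l ∩ (G ∪ T))` because `closure (A l ∩ T) = T`.
* `rel_isBase_of_tight`: from `rel_isBase_iff` with `I := A l ∩ T`:
  `(A l ∩ (X \ T)) ∪ (A l ∩ T) = A l ∩ X` is independent and spans `X`.
* `base_of_rel`: `(A l \ X) ∪ (A l ∩ X)` is a base, `closure (A l ∩ X) = X = closure (D ∪ (A l ∩ T))`,
  and `D ∪ (A l ∩ T)` is a basis of `X`; so `(A l \ X) ∪ (D ∪ (A l ∩ T))` is independent and spanning
  (e.g. with `I1 := A l ∩ X`, `I2 := D ∪ (A l ∩ T)` both bases of `X`:
  `IsBasis.contract_indep_iff` for both gives the independence of `(A l \ X) ∪ I2` from that of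
  `(A l \ X) ∪ I1`; the closures of the two sets are equal).
* `rel_eRank`: `eRk (X)` = encard of `A l ∩ X` = encard of `(A l ∩ (X \ T))` + encard of `A l ∩ T`;
  if `J` is nonempty. (Or Mathlib's formula for the rank of a contraction.) The statement is
  given for a basis `I` of `T`, `D` a base of `rel M T X`: `encard D + eRk T = eRk X`.
-/

set_option autoImplicit false

namespace Pool.Agent.WL

open Set Pool.Agent.WD
open scoped Matroid

variable {α ι : Type*} {M : Matroid α}

/-- The minor `(M ／ T) ↾ (X \ T)`. -/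
def rel (M : Matroid α) (T X : Set α) : Matroid α := (M ／ T) ↾ (X \ T)

@[simp] theorem rel_ground (M : Matroid α) (T X : Set α) : (rel M T X).E = X \ T := rfl

theorem rel_isBase_iff {T X I D : Set α} (hTX : T ⊆ X) (hX : X ⊆ M.E) (hI : M.IsBasis I T) :
    (rel M T X).IsBase D ↔ D ⊆ X \ T ∧ M.IsBasis (D ∪ I) X := by
  have hR : X \ T ⊆ (M ／ T).E := by
    rw [Matroid.contract_ground]
    exact sdiff_subset_sdiff_left hX
  have hTE : T ⊆ M.E := hTX.trans hX
  rw [rel, Matroid.isBase_restrict_iff hR]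
  constructor
  · intro h
    refine ⟨h.subset, ?_⟩
    have h1 := (hI.contract_indep_iff).1 h.indep
    refine h1.1.isBasis_of_subset_of_subset_closure
      (union_subset (h.subset.trans sdiff_subset) (hI.subset.trans hTX)) ?_
    have h2 : M.closure (D ∪ I) = M.closure (D ∪ T) :=
      Matroid.closure_union_congr_right hI.closure_eq_closure
    intro x hx
    rw [h2]
    by_cases hxT : x ∈ T
    · exact M.subset_closure (D ∪ T)
        (union_subset ((h.subset.trans sdiff_subset).trans hX) hTE) (Or.inr hxT)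
    · have h3 := h.subset_closure ⟨hx, hxT⟩
      rw [Matroid.contract_closure_eq] at h3
      exact h3.1
  · rintro ⟨h1, h2⟩
    have hdj : Disjoint T D := (disjoint_sdiff_right).mono_right h1
    have h3 : (M ／ T).Indep D := (hI.contract_indep_iff).2 ⟨h2.indep, hdj⟩
    refine h3.isBasis_of_subset_of_subset_closure h1 ?_
    rintro x ⟨hx, hxT⟩
    rw [Matroid.contract_closure_eq]
    exact ⟨M.closure_subset_closure (union_subset_union_right _ hI.subset)
      (h2.subset_closure hx), hxT⟩

theorem rel_closure {T X S : Set α} (hTX : T ⊆ X) (hX : X ⊆ M.E) (hS : S ⊆ X \ T) :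
    (rel M T X).closure S = (M.closure (S ∪ T) ∩ X) \ T := by
  have hR : X \ T ⊆ (M ／ T).E := by
    rw [Matroid.contract_ground]
    exact sdiff_subset_sdiff_left hX
  rw [rel, Matroid.restrict_closure_eq _ hS hR, Matroid.contract_closure_eq]
  ext x
  constructor
  · rintro ⟨⟨h1, h2⟩, h3, _⟩
    exact ⟨⟨h1, h3⟩, h2⟩
  · rintro ⟨⟨h1, h2⟩, h3⟩
    exact ⟨⟨h1, h3⟩, h2, h3⟩

theorem rel_eRank {T X : Set α} (hTX : T ⊆ X) (hX : X ⊆ M.E) :
    (rel M T X).eRank + M.eRk T = M.eRk X := by
  obtain ⟨I, hI⟩ := M.exists_isBasis T (hTX.trans hX)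
  obtain ⟨D, hD⟩ := (rel M T X).exists_isBase
  have h1 := (rel_isBase_iff hTX hX hI).1 hD
  have hdj : Disjoint D I := (disjoint_sdiff_left).mono h1.1 hI.subset
  rw [← hD.encard_eq_eRank, ← hI.encard_eq_eRk, ← h1.2.encard_eq_eRk, encard_union_eq hdj]

theorem tight_isBasis {A : ι → Set α} {J : Set ι} (hA : ∀ l, M.IsBase (A l)) {F : Set α}
    (hF : Tight M A J F) {l : ι} (hl : l ∈ J) : M.IsBasis (A l ∩ F) F :=
  ((hA l).indep.subset inter_subset_left).isBasis_of_subset_of_subset_closure
    inter_subset_right (hF.2 l hl).symm.subset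

theorem rel_isBase_of_tight {A : ι → Set α} {J : Set ι} (hA : ∀ l, M.IsBase (A l)) {T X : Set α}
    (hT : Tight M A J T) (hX : Tight M A J X) (hTX : T ⊆ X) {l : ι} (hl : l ∈ J) :
    (rel M T X).IsBase (A l ∩ (X \ T)) := by
  have hI := tight_isBasis hA hT hl
  refine (rel_isBase_iff hTX hX.1.subset_ground hI).2 ⟨inter_subset_right, ?_⟩
  have h1 : A l ∩ (X \ T) ∪ A l ∩ T = A l ∩ X := by
    rw [← inter_union_distrib_left, sdiff_union_of_subset hTX]
  rw [h1]
  exact tight_isBasis hA hX hl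

theorem rel_tight_iff {A : ι → Set α} {J : Set ι} (hA : ∀ l, M.IsBase (A l)) {T X G : Set α}
    (hT : Tight M A J T) (hX : Tight M A J X) (hTX : T ⊆ X) (hG : G ⊆ X \ T) :
    Tight (rel M T X) (fun l => A l ∩ (X \ T)) J G ↔ Tight M A J (G ∪ T) := by
  have hXE := hX.1.subset_ground
  have hGX : G ⊆ X := hG.trans sdiff_subset
  have hGT : G ∪ T ⊆ X := union_subset hGX hTX
  have hXc : M.closure X = X := hX.1.closure
  have aux : ∀ C : Set α, T ⊆ C → C ⊆ X → ((C ∩ X) \ T = G ↔ C = G ∪ T) := by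
    intro C hTC hCX
    rw [inter_eq_self_of_subset_left hCX]
    constructor
    · intro h
      rw [← h, sdiff_union_of_subset hTC]
    · intro h
      rw [h]
      ext x
      constructor
      · rintro ⟨h1 | h1, h2⟩
        · exact h1
        · exact absurd h1 h2
      · intro h1
        exact ⟨Or.inl h1, (hG h1).2⟩
  have hcl : ∀ l ∈ J, M.closure ((A l ∩ G) ∪ T) = M.closure (A l ∩ (G ∪ T)) := by
    intro l hl
    have h1 : M.closure ((A l ∩ G) ∪ T) = M.closure ((A l ∩ G) ∪ M.closure (A l ∩ T)) := by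
      rw [hT.2 l hl]
    rw [h1, M.closure_union_closure_right_eq, inter_union_distrib_left]
  have hflat : (rel M T X).IsFlat G ↔ M.IsFlat (G ∪ T) := by
    rw [Matroid.isFlat_iff_closure_eq, Matroid.isFlat_iff_closure_eq,
      rel_closure hTX hXE hG]
    refine aux _ (subset_union_right.trans (M.subset_closure _ (hGT.trans hXE))) ?_
    rw [← hXc]
    exact M.closure_subset_closure hGT
  refine and_congr hflat (forall₂_congr fun l hl => ?_)
  have h2 : A l ∩ (X \ T) ∩ G = A l ∩ G := by
    rw [inter_assoc, inter_eq_self_of_subset_right hG]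
  simp only [h2]
  rw [rel_closure hTX hXE (inter_subset_right.trans hG), hcl l hl]
  refine aux _ ?_ ?_
  · rw [← hcl l hl]
    exact subset_union_right.trans (M.subset_closure _
      ((union_subset (inter_subset_right.trans hGX) hTX).trans hXE))
  · have h3 := M.closure_subset_closure ((inter_subset_right (s := A l)).trans hGT)
    rwa [hXc] at h3

/-- Replacing the part of a base in `X \ T` by another base of the minor. -/
theorem base_of_rel {B T X D : Set α} (hB : M.IsBase B) (hT : M.closure (B ∩ T) = T)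
    (hX : M.closure (B ∩ X) = X) (hTX : T ⊆ X) (hD : (rel M T X).IsBase D) :
    M.IsBase ((B \ (X \ T)) ∪ D) := by
  have hBE := hB.subset_ground
  have hXE : X ⊆ M.E := by
    rw [← hX]
    exact M.closure_subset_ground _
  have hI : M.IsBasis (B ∩ T) T :=
    (hB.indep.subset inter_subset_left).isBasis_of_subset_of_subset_closure
      inter_subset_right hT.symm.subset
  have hI1 : M.IsBasis (B ∩ X) X :=
    (hB.indep.subset inter_subset_left).isBasis_of_subset_of_subset_closure
      inter_subset_right hX.symm.subset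
  have h1 := (rel_isBase_iff hTX hXE hI).1 hD
  have hI2 := h1.2
  have e : (B \ (X \ T)) ∪ D = (B \ X) ∪ (D ∪ (B ∩ T)) := by
    ext x
    constructor
    · rintro (⟨h2, h3⟩ | h2)
      · by_cases hxX : x ∈ X
        · by_cases hxT : x ∈ T
          · exact Or.inr (Or.inr ⟨h2, hxT⟩)
          · exact absurd ⟨hxX, hxT⟩ h3
        · exact Or.inl ⟨h2, hxX⟩
      · exact Or.inr (Or.inl h2)
    · rintro (⟨h2, h3⟩ | h2 | ⟨h2, h3⟩)
      · exact Or.inl ⟨h2, fun h => h3 h.1⟩
      · exact Or.inr h2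
      · exact Or.inl ⟨h2, fun h => h.2 h3⟩
  have e1 : (B \ X) ∪ (B ∩ X) = B := sdiff_union_inter B X
  have h4 : (M ／ X).Indep (B \ X) := by
    rw [hI1.contract_indep_iff, e1]
    exact ⟨hB.indep, disjoint_sdiff_right⟩
  have h5 : M.Indep ((B \ X) ∪ (D ∪ (B ∩ T))) := ((hI2.contract_indep_iff).1 h4).1
  rw [e]
  have h6 : M.closure ((B \ X) ∪ (D ∪ (B ∩ T))) = M.E := by
    rw [Matroid.closure_union_congr_right hI2.closure_eq_closure,
      ← Matroid.closure_union_congr_right hI1.closure_eq_closure, e1, hB.closure_eq]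
  refine h5.isBase_of_spanning ?_
  rw [Matroid.spanning_iff]
  exact ⟨h6, h5.subset_ground⟩

end Pool.Agent.WL
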