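import Pool.Agent.WL.Share

/-!
# WL/Multi: simultaneous exchanges keeping the base number `k`

PROOF. Compare `WD/Multi.lean`, theorem `multi_exchange`, whose proof is to be copied and changed.
Induction on `s`. `s = 0`: `A₀ := A`, `A₁ := A`. Step: `T'` := least tight flat containing `insert (x 0) T`.
As in `multi_exchange`: `x`, `y` injective, `x i.succ ∉ T'`, `y i.succ ∉ T'`. `local_share` for `x 0`, `y 0` gives
`B₀, B₁`. Induction hypothesis for `B₁`, `T'` (tight flats above `T'` are the same for `A` and `B₁`,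
`tight_of_change`) gives `C₀, C₁` with `⋃ C₀ = ⋃ B₁`, `⋃ C₁ = (⋃ B₁ \ range) ∪ range`, `C₀ k = C₁ k`,
`C₀ l ∩ T' = B₁ l ∩ T'`, `C₁ l ∩ T' = B₁ l ∩ T'`.
`A₁ := C₁`, `A₀ l := (C₀ l \ T') ∪ (B₀ l ∩ T')`.
 * `A₀ l` is a base: `glue_base` (below) for `C₀ l`, `B₀ l`, flat `T'` (`closure (C₀ l ∩ T') = closure (B₁ l ∩ T') = T'`
   and `closure (B₀ l ∩ T') = T'` by `tight_of_change`). Disjoint: `C₀ l \ T'` from `C₀ l' \ T'`, `B₀ l ∩ T'` from
   `B₀ l' ∩ T'`.
 * `⋃ A₀ = (⋃ C₀ \ T') ∪ (⋃ B₀ ∩ T') = (⋃ B₁ \ T') ∪ (⋃ A ∩ T')`, and `⋃ B₁ \ T' = ⋃ A \ T'` (as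
   `B₁ l \ (T' \ T) = A l \ (T' \ T)`).
 * `A₀ k = (C₀ k \ T') ∪ (B₀ k ∩ T') = (C₀ k \ T') ∪ (B₁ k ∩ T') = (C₀ k \ T') ∪ (C₀ k ∩ T') = C₀ k = C₁ k`.
 * `A₀ l ∩ T = B₀ l ∩ T = A l ∩ T`, `A₁ l ∩ T = C₁ l ∩ T' ∩ T = B₁ l ∩ T = A l ∩ T`.
-/

set_option autoImplicit false

namespace Pool.Agent.WL

open Set Pool.Agent.WD
open scoped Matroid

variable {α : Type*} {M : Matroid α}

/-- Replacing the part of a base inside a flat by another basis of the flat. -/
theorem glue_base {B C T : Set α} (hB : M.IsBase B) (hC : M.IsBase C)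
    (hBT : M.closure (B ∩ T) = T) (hCT : M.closure (C ∩ T) = T) :
    M.IsBase ((C \ T) ∪ (B ∩ T)) := by
  have hTE : T ⊆ M.E := by rw [← hBT]; exact M.closure_subset_ground _
  have hb : M.IsBasis (B ∩ T) T :=
    (hB.indep.subset inter_subset_left).isBasis_of_subset_of_subset_closure inter_subset_right
      hBT.ge
  have hc : M.IsBasis (C ∩ T) T :=
    (hC.indep.subset inter_subset_left).isBasis_of_subset_of_subset_closure inter_subset_right
      hCT.ge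
  have hd : Disjoint T (C \ T) := disjoint_sdiff_right
  have h1 : M.Indep ((C \ T) ∪ (C ∩ T)) := by
    rw [sdiff_union_inter]
    exact hC.indep
  have h2 : (M ／ T).Indep (C \ T) := (hc.contract_indep_iff_of_disjoint hd).2 h1
  have h3 : M.Indep ((C \ T) ∪ (B ∩ T)) := (hb.contract_indep_iff_of_disjoint hd).1 h2
  refine h3.isBase_of_ground_subset_closure ?_
  rw [← hC.closure_eq]
  apply M.closure_subset_closure_of_subset_closure
  intro u hu
  by_cases huT : u ∈ T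
  · have h4 : u ∈ M.closure (B ∩ T) := by rw [hBT]; exact huT
    exact M.closure_subset_closure subset_union_right h4
  · exact M.subset_closure _ h3.subset_ground (Or.inl ⟨hu, huT⟩)

theorem multi_share {q m : ℕ} (h : S1 α q m) [M.RankFinite] (hM : M.eRank ≤ (m : ℕ∞))
    (k : Fin q) (s : ℕ) :
    ∀ (A : Fin q → Set α) (T : Set α) (x y : Fin s → α), IsFam M A → Tight M A univ T →
    (∀ i, x i ∈ M.E) → (∀ i l, x i ∉ A l) → (∀ i, y i ∈ ⋃ l, A l) → (∀ i, x i ∉ T) →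
    (∀ i, y i ∉ T) →
    (∀ i F, Tight M A univ F → T ⊆ F → x i ∈ F → y i ∈ F) →
    (∀ i j, i ≠ j → ∃ F, Tight M A univ F ∧ T ⊆ F ∧ x i ∈ F ∧ y j ∉ F) →
    ∃ A₀ A₁ : Fin q → Set α, IsFam M A₀ ∧ IsFam M A₁ ∧ (⋃ l, A₀ l) = (⋃ l, A l) ∧
      (⋃ l, A₁ l) = ((⋃ l, A l) \ range y) ∪ range x ∧ A₀ k = A₁ k ∧
      (∀ l, A₀ l ∩ T = A l ∩ T) ∧ (∀ l, A₁ l ∩ T = A l ∩ T) := by
  classical
  induction s with
  | zero =>
    intro A T x y hA hT _ _ _ _ _ _ _
    refine ⟨A, A, hA, hA, rfl, ?_, rfl, fun _ => rfl, fun _ => rfl⟩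
    rw [range_eq_empty y, range_eq_empty x, sdiff_empty, union_empty]
  | succ s ih =>
    intro A T x y hA hT hxE hxA hyA hxT hyT h1 h2
    obtain ⟨T', hT', hTT'', hmin⟩ := exists_least (M := M) (A := A) hA.1 univ
      (X := insert (x 0) T) (insert_subset (hxE 0) hT.1.subset_ground)
    have hTT' : T ⊆ T' := (subset_insert _ _).trans hTT''
    have hx0T' : x 0 ∈ T' := hTT'' (mem_insert _ _)
    have hxinj : ∀ i j, i ≠ j → x i ≠ x j := by
      intro i j hij h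
      obtain ⟨F, hF, hTF, hxF, hyF⟩ := h2 i j hij
      exact hyF (h1 j F hF hTF (h ▸ hxF))
    have hyinj : ∀ i j, i ≠ j → y i ≠ y j := by
      intro i j hij h
      obtain ⟨F, hF, hTF, hxF, hyF⟩ := h2 i j hij
      exact hyF (h ▸ h1 i F hF hTF hxF)
    have hle : ∀ i : Fin s, ∃ F, Tight M A univ F ∧ T ⊆ F ∧ T' ⊆ F ∧ y i.succ ∉ F := by
      intro i
      obtain ⟨F, hF, hTF, hxF, hyF⟩ := h2 0 i.succ (Fin.succ_ne_zero i).symm
      exact ⟨F, hF, hTF, hmin F hF (insert_subset hxF hTF), hyF⟩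
    have hxT' : ∀ i : Fin s, x i.succ ∉ T' := by
      intro i hi
      obtain ⟨F, hF, hTF, hT'F, hyF⟩ := hle i
      exact hyF (h1 _ F hF hTF (hT'F hi))
    have hyT' : ∀ i : Fin s, y i.succ ∉ T' := by
      intro i hi
      obtain ⟨F, hF, hTF, hT'F, hyF⟩ := hle i
      exact hyF (hT'F hi)
    obtain ⟨B₀, B₁, hB₀, hB₁, hU₀, hU₁, hkk, hd₀, hd₁⟩ := local_share h hM hA hT hT' hTT'
      (x := x 0) (y := y 0) ⟨hx0T', hxT 0⟩ (hxA 0) (hyA 0) (hyT 0) (h1 0) k
    have hch' : ∀ (X Y : Fin q → Set α), (∀ l, X l \ (T' \ T) = Y l \ (T' \ T)) →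
        ∀ l, X l \ T' = Y l \ T' := by
      intro X Y hXY l
      have h3 : ∀ X : Set α, (X \ (T' \ T)) \ T' = X \ T' := by
        intro X
        ext e
        simp only [mem_sdiff]
        tauto
      rw [← h3 (X l), hXY l, h3 (Y l)]
    have hinT : ∀ (X Y : Fin q → Set α), (∀ l, X l \ (T' \ T) = Y l \ (T' \ T)) →
        ∀ l, X l ∩ T = Y l ∩ T := by
      intro X Y hXY l
      have h3 : ∀ X : Set α, (X \ (T' \ T)) ∩ T = X ∩ T := by
        intro X
        ext e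
        simp only [mem_sdiff, mem_inter_iff]
        tauto
      rw [← h3 (X l), hXY l, h3 (Y l)]
    have hch₀ := hch' B₀ A hd₀
    have hch₁ := hch' B₁ A hd₁
    have htight : ∀ F, T' ⊆ F → (Tight M A univ F ↔ Tight M B₁ univ F) := fun F hF =>
      tight_of_change hA.1 hB₁.1 hT' hch₁ hF
    have hT'B₁ : Tight M B₁ univ T' := (htight T' subset_rfl).1 hT'
    have hT'B₀ : Tight M B₀ univ T' := (tight_of_change hA.1 hB₀.1 hT' hch₀ subset_rfl).1 hT'
    obtain ⟨C₀, C₁, hC₀, hC₁, hV₀, hV₁, hkC, hc₀, hc₁⟩ := ih B₁ T' (fun i => x i.succ)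
      (fun i => y i.succ) hB₁ hT'B₁ (fun i => hxE _)
      (by
        intro i l hl
        have h3 : x i.succ ∈ ⋃ l, B₁ l := mem_iUnion.2 ⟨l, hl⟩
        rw [hU₁] at h3
        rcases h3 with h3 | h3
        · exact hxinj _ _ (Fin.succ_ne_zero i) h3
        · obtain ⟨l', hl'⟩ := mem_iUnion.1 h3.1
          exact hxA _ _ hl')
      (by
        intro i
        rw [hU₁]
        exact Or.inr ⟨hyA _, fun h => hyinj _ _ (Fin.succ_ne_zero i) h⟩)
      hxT' hyT'
      (by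
        intro i F hF hT'F hxF
        exact h1 _ F ((htight F hT'F).2 hF) (hTT'.trans hT'F) hxF)
      (by
        intro i j hij
        obtain ⟨F, hF, hTF, hxF, hyF⟩ := h2 i.succ j.succ
          (fun h => hij (Fin.succ_injective _ h))
        have hsub : T' ∪ F ⊆ M.closure (T' ∪ F) :=
          M.subset_closure _ (union_subset hT'.1.subset_ground hF.1.subset_ground)
        have hT'G : T' ⊆ M.closure (T' ∪ F) := subset_union_left.trans hsub
        refine ⟨M.closure (T' ∪ F), (htight _ hT'G).1 (tight_join hT' hF), hT'G,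
          hsub (Or.inr hxF), fun hyG => ?_⟩
        obtain ⟨l, hl⟩ := mem_iUnion.1 (hyA j.succ)
        rcases join_inter hA.1 hT' hF (mem_univ l) hl hyG with h | h
        · exact hyT' j h
        · exact hyF h)
    have hCT : ∀ l, M.closure (C₀ l ∩ T') = T' := by
      intro l
      rw [hc₀ l]
      exact hT'B₁.2 l (mem_univ l)
    have hBT : ∀ l, M.closure (B₀ l ∩ T') = T' := fun l => hT'B₀.2 l (mem_univ l)
    refine ⟨fun l => (C₀ l \ T') ∪ (B₀ l ∩ T'), C₁, ⟨fun l => ?_, ?_⟩, hC₁, ?_, ?_, ?_, ?_, ?_⟩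
    · exact glue_base (hB₀.1 l) (hC₀.1 l) (hBT l) (hCT l)
    · intro l l' hll
      have hC := hC₀.2 hll
      have hB := hB₀.2 hll
      simp only [Function.onFun] at hC hB ⊢
      rw [disjoint_left] at hC hB ⊢
      rintro u (⟨hu, huT⟩ | ⟨hu, huT⟩) (⟨hu', huT'⟩ | ⟨hu', huT'⟩)
      · exact hC hu hu'
      · exact huT huT'
      · exact huT' huT
      · exact hB hu hu'
    · -- the union of the `A₀ l`
      ext u
      simp only [mem_iUnion, mem_union, mem_sdiff, mem_inter_iff]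
      have hV : (∃ l, u ∈ C₀ l) ↔ ∃ l, u ∈ B₁ l := by
        rw [← mem_iUnion, ← mem_iUnion, hV₀]
      have hW : (∃ l, u ∈ B₀ l) ↔ ∃ l, u ∈ A l := by
        rw [← mem_iUnion, ← mem_iUnion, hU₀]
      by_cases huT : u ∈ T'
      · rw [← hW]
        constructor
        · rintro ⟨l, h3 | h3⟩
          · exact absurd huT h3.2
          · exact ⟨l, h3.1⟩
        · rintro ⟨l, h3⟩
          exact ⟨l, Or.inr ⟨h3, huT⟩⟩
      · constructor
        · rintro ⟨l, h3 | h3⟩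
          · obtain ⟨l', hl'⟩ := hV.1 ⟨l, h3.1⟩
            have h4 : u ∈ B₁ l' \ T' := ⟨hl', huT⟩
            rw [hch₁ l'] at h4
            exact ⟨l', h4.1⟩
          · exact absurd h3.2 huT
        · rintro ⟨l, h3⟩
          have h4 : u ∈ A l \ T' := ⟨h3, huT⟩
          rw [← hch₁ l] at h4
          obtain ⟨l', hl'⟩ := hV.2 ⟨l, h4.1⟩
          exact ⟨l', Or.inl ⟨hl', huT⟩⟩
    · rw [hV₁, hU₁]
      ext e
      simp only [mem_union, mem_sdiff, mem_insert_iff, mem_singleton_iff, mem_range]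
      constructor
      · rintro (⟨h3 | ⟨h3, h4⟩, h5⟩ | ⟨i, h3⟩)
        · exact Or.inr ⟨0, h3.symm⟩
        · refine Or.inl ⟨h3, ?_⟩
          rintro ⟨i, hi⟩
          refine Fin.cases (fun hi => h4 hi.symm) (fun i hi => h5 ⟨i, hi⟩) i hi
        · exact Or.inr ⟨_, h3⟩
      · rintro (⟨h3, h4⟩ | ⟨i, h3⟩)
        · exact Or.inl ⟨Or.inr ⟨h3, fun h => h4 ⟨0, h.symm⟩⟩, fun ⟨i, hi⟩ => h4 ⟨_, hi⟩⟩
        · revert h3
          refine Fin.cases (fun hi => ?_) (fun i hi => Or.inr ⟨i, hi⟩) i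
          refine Or.inl ⟨Or.inl hi.symm, ?_⟩
          rintro ⟨j, hj⟩
          obtain ⟨l, hl⟩ := mem_iUnion.1 (hyA j.succ)
          rw [hj, ← hi] at hl
          exact hxA _ _ hl
    · change (C₀ k \ T') ∪ (B₀ k ∩ T') = C₁ k
      rw [hkk, ← hc₀ k, sdiff_union_inter, hkC]
    · intro l
      rw [← hinT B₀ A hd₀ l]
      ext u
      simp only [mem_union, mem_sdiff, mem_inter_iff]
      constructor
      · rintro ⟨⟨_, h3⟩ | ⟨h3, _⟩, h4⟩
        · exact absurd (hTT' h4) h3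
        · exact ⟨h3, h4⟩
      · rintro ⟨h3, h4⟩
        exact ⟨Or.inr ⟨h3, hTT' h4⟩, h4⟩
    · intro l
      rw [← hinT B₁ A hd₁ l]
      have h3 : C₁ l ∩ T = (C₁ l ∩ T') ∩ T := by
        rw [inter_assoc, inter_eq_self_of_subset_right hTT']
      have h4 : B₁ l ∩ T = (B₁ l ∩ T') ∩ T := by
        rw [inter_assoc, inter_eq_self_of_subset_right hTT']
      rw [h3, hc₁ l, h4]

end Pool.Agent.WL
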