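import Pool.Agent.WL.Index
import Pool.Agent.WL.Minor

/-!
# WL/Relative: (S1) inside `X \ T` for tight flats `T ⊆ X`

PROOF. Let `N := rel M T X`, `B l := A l ∩ (X \ T)`. By `rel_isBase_of_tight` all `B l`, `l ∈ J`, are
bases of `N`, pairwise disjoint; `N.eRank ≤ m` by `rel_eRank` (`M.eRk T` is finite, cancel).
`Reach N B J x y`: `y ∈ X` because of `hxy` for `X` (so `y ∈ X \ T`, `y ∈ B l` for the `l` of `hyA`); if
`G` is `J`-tight in `N` and `x ∈ G` then `G ∪ T` is `J`-tight in `M` (`rel_tight_iff`), so `y ∈ G ∪ T`, and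
`y ∉ T`. `S1.finset` gives `B'`. Put `A' l := (A l \ (X \ T)) ∪ B' l` for `l ∈ J` and
`A' l := A l` otherwise. `IsFam`: `base_of_rel`; disjoint: `B' l ⊆ ⋃_{J} B' = ⋃_{J} B ⊆ X \ T` and
`B' l` is disjoint from `A l'`, `l' ∉ J` (as `⋃_{J} B` is). Note `A' l ∩ (X \ T) = B' l` for `l ∈ J`.
Last claim: `T` and `X` are `J \ {k}`-tight for `A'` (`A' l ∩ T = A l ∩ T`; for `X` use
`tight_of_change`, or closures directly). Given `F`, `J \ {k}`-tight for `A'`, `T ⊆ F`, `x ∈ F`: also `F ∩ X`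
is tight (`tight_sInter` for the pair `{F, X}`), it contains `T`; `G := (F ∩ X) \ T`, `G ∪ T = F ∩ X`, so `G`
is `J \ {k}`-tight in `N` for `fun l => A' l ∩ (X \ T)` (`rel_tight_iff`), which agrees with `B'` on `J`;
so `y ∈ G ⊆ F`.
-/

set_option autoImplicit false

namespace Pool.Agent.WL

open Set Pool.Agent.WD

variable {α ι : Type*} {M : Matroid α}

theorem relative [DecidableEq ι] {p m : ℕ} (h : S1 α p m) [M.RankFinite] {A : ι → Set α}
    (hA : IsFam M A) {J : Finset ι} (hJ : J.card = p) {T X : Set α}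
    (hT : Tight M A (J : Set ι) T) (hX : Tight M A (J : Set ι) X) (hTX : T ⊆ X)
    (hr : M.eRk X ≤ M.eRk T + (m : ℕ∞)) {x y : α} (hx : x ∈ X \ T) (hxA : ∀ l ∈ J, x ∉ A l)
    (hyT : y ∉ T) (hyA : ∃ l ∈ J, y ∈ A l)
    (hxy : ∀ F, Tight M A (J : Set ι) F → T ⊆ F → x ∈ F → y ∈ F) {k : ι} (hk : k ∈ J) :
    ∃ A' : ι → Set α, IsFam M A' ∧ (⋃ l, A' l) = (⋃ l, A l) ∧ (∀ l, l ∉ J → A' l = A l) ∧
      (∀ l, A' l \ (X \ T) = A l \ (X \ T)) ∧ (∃ l ∈ (J : Set ι) \ {k}, y ∈ A' l) ∧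
      ∀ F, Tight M A' ((J : Set ι) \ {k}) F → T ⊆ F → x ∈ F → y ∈ F := by
  classical
  have hAb : ∀ l, M.IsBase (A l) := hA.1
  have hXE : X ⊆ M.E := hX.1.subset_ground
  have hTE : T ⊆ M.E := hT.1.subset_ground
  set N := rel M T X with hN
  set B : ι → Set α := fun l => A l ∩ (X \ T) with hBdef
  have hB : ∀ l ∈ J, N.IsBase (B l) := fun l hl => rel_isBase_of_tight hAb hT hX hTX hl
  have hd : (J : Set ι).PairwiseDisjoint B := fun l _ l' _ hne =>
    (hA.2 hne).mono inter_subset_left inter_subset_left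
  have hNr : N.eRank ≤ (m : ℕ∞) := by
    have h1 := rel_eRank (M := M) hTX hXE
    rw [← h1, add_comm] at hr
    have hfin : M.eRk T ≠ ⊤ := M.eRk_ne_top_iff.2 (M.isRkFinite_set T)
    exact (ENat.add_le_add_iff_left hfin).1 hr
  have hyX : y ∈ X := hxy X hX hTX hx.1
  have hReach : Reach N B (J : Set ι) x y := by
    constructor
    · obtain ⟨l, hl, hyl⟩ := hyA
      exact ⟨l, hl, hyl, hyX, hyT⟩
    · intro G hG hxG
      have hGs : G ⊆ X \ T := hG.1.subset_ground
      have h1 := (rel_tight_iff hAb hT hX hTX hGs).1 hG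
      have h2 := hxy (G ∪ T) h1 subset_union_right (Or.inl hxG)
      exact h2.resolve_right hyT
  obtain ⟨B', hB'1, hB'd, hB'U, hB'out, hB'R⟩ := S1.finset h hNr hJ hB hd (x := x) (y := y) hx
    (fun l hl hxB => hxA l hl hxB.1) hReach hk
  have hB's : ∀ l ∈ J, B' l ⊆ X \ T := fun l hl => (hB'1 l hl).subset_ground
  have hB'A : ∀ l ∈ J, ∀ z ∈ B' l, ∃ l' ∈ J, z ∈ A l' := by
    intro l hl z hz
    have h1 : z ∈ ⋃ l ∈ J, B' l := mem_biUnion (s := (J : Set ι)) hl hz
    rw [hB'U] at h1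
    simp only [mem_iUnion] at h1
    obtain ⟨l', hl', hz'⟩ := h1
    exact ⟨l', hl', hz'.1⟩
  let A' : ι → Set α := fun l => if l ∈ J then (A l \ (X \ T)) ∪ B' l else A l
  have hA'in : ∀ l ∈ J, A' l = (A l \ (X \ T)) ∪ B' l := fun l hl => if_pos hl
  have hA'out : ∀ l, l ∉ J → A' l = A l := fun l hl => if_neg hl
  have hA'b : ∀ l, M.IsBase (A' l) := by
    intro l
    by_cases hl : l ∈ J
    · rw [hA'in l hl]
      exact base_of_rel (hAb l) (hT.2 l hl) (hX.2 l hl) hTX (hB'1 l hl)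
    · rw [hA'out l hl]
      exact hAb l
  have hdJ : ∀ l ∈ J, ∀ l', l' ∉ J → Disjoint (A' l) (A' l') := by
    intro l hl l' hl'
    rw [hA'in l hl, hA'out l' hl', disjoint_union_left]
    constructor
    · have hne : l ≠ l' := by rintro rfl; exact hl' hl
      exact (hA.2 hne).mono_left sdiff_subset
    · rw [Set.disjoint_left]
      intro z hz hz'
      obtain ⟨l'', hl'', hz''⟩ := hB'A l hl z hz
      have hne : l'' ≠ l' := by rintro rfl; exact hl' hl''
      exact Set.disjoint_left.1 (hA.2 hne) hz'' hz'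
  have hA'd : Pairwise (Function.onFun Disjoint A') := by
    intro l l' hne
    show Disjoint (A' l) (A' l')
    by_cases hl : l ∈ J
    · by_cases hl' : l' ∈ J
      · rw [hA'in l hl, hA'in l' hl']
        rw [Set.disjoint_left]
        rintro z (hz | hz) (hz' | hz')
        · exact Set.disjoint_left.1 (hA.2 hne) hz.1 hz'.1
        · exact hz.2 (hB's l' hl' hz')
        · exact hz'.2 (hB's l hl hz)
        · exact Set.disjoint_left.1 (hB'd hl hl' hne) hz hz'
      · exact hdJ l hl l' hl'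
    · by_cases hl' : l' ∈ J
      · exact (hdJ l' hl' l hl).symm
      · rw [hA'out l hl, hA'out l' hl']
        exact hA.2 hne
  have hdiff : ∀ l, A' l \ (X \ T) = A l \ (X \ T) := by
    intro l
    by_cases hl : l ∈ J
    · rw [hA'in l hl]
      ext z
      constructor
      · rintro ⟨hz | hz, h2⟩
        · exact hz
        · exact absurd (hB's l hl hz) h2
      · rintro ⟨h1, h2⟩
        exact ⟨Or.inl ⟨h1, h2⟩, h2⟩
    · rw [hA'out l hl]
  have hdiffX : ∀ l, A' l \ X = A l \ X := by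
    intro l
    have h1 := hdiff l
    ext z
    have h2 := Set.ext_iff.1 h1 z
    constructor
    · rintro ⟨hz, hzX⟩
      exact ⟨(h2.1 ⟨hz, fun h' => hzX h'.1⟩).1, hzX⟩
    · rintro ⟨hz, hzX⟩
      exact ⟨(h2.2 ⟨hz, fun h' => hzX h'.1⟩).1, hzX⟩
  have hinterT : ∀ l, A' l ∩ T = A l ∩ T := by
    intro l
    have h1 := hdiff l
    ext z
    have h2 := Set.ext_iff.1 h1 z
    constructor
    · rintro ⟨hz, hzT⟩
      exact ⟨(h2.1 ⟨hz, fun h' => h'.2 hzT⟩).1, hzT⟩
    · rintro ⟨hz, hzT⟩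
      exact ⟨(h2.2 ⟨hz, fun h' => h'.2 hzT⟩).1, hzT⟩
  have hinterB : ∀ l ∈ J, A' l ∩ (X \ T) = B' l := by
    intro l hl
    rw [hA'in l hl]
    ext z
    constructor
    · rintro ⟨hz | hz, h2⟩
      · exact absurd h2 hz.2
      · exact hz
    · intro hz
      exact ⟨Or.inr hz, hB's l hl hz⟩
  refine ⟨A', ⟨hA'b, hA'd⟩, ?_, hA'out, hdiff, ?_, ?_⟩
  · ext z
    simp only [mem_iUnion]
    constructor
    · rintro ⟨l, hz⟩
      by_cases hl : l ∈ J
      · rw [hA'in l hl] at hz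
        rcases hz with hz | hz
        · exact ⟨l, hz.1⟩
        · obtain ⟨l', _, hz'⟩ := hB'A l hl z hz
          exact ⟨l', hz'⟩
      · rw [hA'out l hl] at hz
        exact ⟨l, hz⟩
    · rintro ⟨l, hz⟩
      by_cases hl : l ∈ J
      · by_cases hzX : z ∈ X \ T
        · have h1 : z ∈ ⋃ l ∈ J, B l := mem_biUnion (s := (J : Set ι)) hl ⟨hz, hzX⟩
          rw [← hB'U] at h1
          simp only [mem_iUnion] at h1
          obtain ⟨l', hl', hz'⟩ := h1
          refine ⟨l', ?_⟩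
          rw [hA'in l' hl']
          exact Or.inr hz'
        · refine ⟨l, ?_⟩
          rw [hA'in l hl]
          exact Or.inl ⟨hz, hzX⟩
      · exact ⟨l, by rw [hA'out l hl]; exact hz⟩
  · obtain ⟨⟨l, hl, hyl⟩, _⟩ := hB'R
    refine ⟨l, hl, ?_⟩
    rw [hA'in l hl.1]
    exact Or.inr hyl
  · intro F hF hTF hxF
    have hsub : (J : Set ι) \ {k} ⊆ (J : Set ι) := sdiff_subset
    have hT' : Tight M A' ((J : Set ι) \ {k}) T := by
      refine ⟨hT.1, fun l hl => ?_⟩
      rw [hinterT l]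
      exact hT.2 l hl.1
    have hX' : Tight M A' ((J : Set ι) \ {k}) X :=
      (tight_of_change hAb hA'b (tight_mono hX hsub) hdiffX subset_rfl).1 (tight_mono hX hsub)
    have hFX : Tight M A' ((J : Set ι) \ {k}) (F ∩ X) := by
      have h1 := tight_sInter (M := M) hA'b (J := (J : Set ι) \ {k}) (Fs := {F, X})
        ⟨F, by simp⟩ (by
          intro G hG
          rcases hG with rfl | hG
          · exact hF
          · rw [mem_singleton_iff] at hG
            rw [hG]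
            exact hX')
      rwa [sInter_pair] at h1
    have hGs : (F ∩ X) \ T ⊆ X \ T := fun z hz => ⟨hz.1.2, hz.2⟩
    have hGT : (F ∩ X) \ T ∪ T = F ∩ X := sdiff_union_of_subset (subset_inter hTF hTX)
    have h1 : Tight N (fun l => A' l ∩ (X \ T)) ((J : Set ι) \ {k}) ((F ∩ X) \ T) := by
      rw [rel_tight_iff hA'b hT' hX' hTX hGs, hGT]
      exact hFX
    have h2 : Tight N B' ((J : Set ι) \ {k}) ((F ∩ X) \ T) := by
      refine ⟨h1.1, fun l hl => ?_⟩
      have h3 := h1.2 l hl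
      simp only at h3
      rwa [hinterB l hl.1] at h3
    exact (hB'R.2 _ h2 ⟨⟨hxF, hx.1⟩, hx.2⟩).1.1

end Pool.Agent.WL
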