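import Pool.Agent.WL.Relative
import Pool.Agent.WD.Augment
import Pool.Agent.WD.Reach

/-!
# WL/Share: exchange of `y` for `x` inside `T' \ T` such that the base number `k` is kept (after a
redistribution of the elements of the old bases)

PROOF. `relative h hA` with `J := Finset.univ` (card `q`), `T`, `X := T'`, `x`, `y`, `k`
(`hr`: `M.eRk T' ≤ M.eRank ≤ m`) gives `A₀`. `T`, `T'` are `{k}ᶜ`-tight for `A₀`: `A₀ l ∩ T = A l ∩ T` (from
`A₀ l \ (T' \ T) = A l \ (T' \ T)`), and `tight_of_change` for `T'`. `WD.exists_walk` (with `J := {k}ᶜ`, `A₀`; `l₀` from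
`relative`) and `WD.augment` (with `W := T' \ T`; `x ∉ A₀ l` because the unions are the same; `x ≠ y`)
give `A₁`; `k ∉ {k}ᶜ`, so `A₁ k = A₀ k`.
-/

set_option autoImplicit false

namespace Pool.Agent.WL

open Set Pool.Agent.WD

variable {α : Type*} {M : Matroid α}

theorem local_share {q m : ℕ} (h : S1 α q m) [M.RankFinite] (hM : M.eRank ≤ (m : ℕ∞))
    {A : Fin q → Set α} (hA : IsFam M A) {T T' : Set α} (hT : Tight M A univ T)
    (hT' : Tight M A univ T') (hTT' : T ⊆ T') {x y : α} (hx : x ∈ T' \ T) (hxA : ∀ l, x ∉ A l)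
    (hy : y ∈ ⋃ l, A l) (hyT : y ∉ T) (hxy : ∀ F, Tight M A univ F → T ⊆ F → x ∈ F → y ∈ F)
    (k : Fin q) :
    ∃ A₀ A₁ : Fin q → Set α, IsFam M A₀ ∧ IsFam M A₁ ∧ (⋃ l, A₀ l) = (⋃ l, A l) ∧
      (⋃ l, A₁ l) = insert x ((⋃ l, A l) \ {y}) ∧ A₀ k = A₁ k ∧
      (∀ l, A₀ l \ (T' \ T) = A l \ (T' \ T)) ∧ (∀ l, A₁ l \ (T' \ T) = A l \ (T' \ T)) := by
  classical
  have hT1 : Tight M A ((Finset.univ : Finset (Fin q)) : Set (Fin q)) T := by
    simpa using hT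
  have hT1' : Tight M A ((Finset.univ : Finset (Fin q)) : Set (Fin q)) T' := by
    simpa using hT'
  have hyA : ∃ l ∈ (Finset.univ : Finset (Fin q)), y ∈ A l := by
    obtain ⟨l, hl⟩ := mem_iUnion.1 hy
    exact ⟨l, Finset.mem_univ l, hl⟩
  have hr : M.eRk T' ≤ M.eRk T + (m : ℕ∞) :=
    ((M.eRk_le_eRank T').trans hM).trans le_add_self
  obtain ⟨A₀, hA₀, hU, -, hc, hy₀, hR⟩ := relative h hA (Finset.card_fin q) hT1 hT1' hTT' hr hx
    (fun l _ => hxA l) hyT hyA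
    (fun F hF => hxy F (by simpa using hF)) (Finset.mem_univ k)
  have hJ : ((Finset.univ : Finset (Fin q)) : Set (Fin q)) \ {k} = {k}ᶜ := by
    ext l
    simp
  rw [hJ] at hy₀ hR
  have hmem : ∀ l e, e ∉ T' \ T → (e ∈ A₀ l ↔ e ∈ A l) := by
    intro l e he
    have h1 := congrArg (fun s => e ∈ s) (hc l)
    simp only [mem_sdiff] at h1
    constructor
    · intro h2
      have h3 : e ∈ A l ∧ ¬ (e ∈ T' ∧ e ∉ T) := by
        rw [← h1]
        exact ⟨h2, he⟩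
      exact h3.1
    · intro h2
      have h3 : e ∈ A₀ l ∧ ¬ (e ∈ T' ∧ e ∉ T) := by
        rw [h1]
        exact ⟨h2, he⟩
      exact h3.1
  have hT0 : Tight M A₀ ({k}ᶜ) T := by
    refine ⟨hT.1, fun l _ => ?_⟩
    have h1 : A₀ l ∩ T = A l ∩ T := by
      ext e
      constructor
      · rintro ⟨h2, h3⟩
        exact ⟨(hmem l e (fun h4 => h4.2 h3)).1 h2, h3⟩
      · rintro ⟨h2, h3⟩
        exact ⟨(hmem l e (fun h4 => h4.2 h3)).2 h2, h3⟩
    rw [h1]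
    exact hT.2 l (mem_univ l)
  have hc' : ∀ l, A₀ l \ T' = A l \ T' := by
    intro l
    ext e
    constructor
    · rintro ⟨h2, h3⟩
      exact ⟨(hmem l e (fun h4 => h3 h4.1)).1 h2, h3⟩
    · rintro ⟨h2, h3⟩
      exact ⟨(hmem l e (fun h4 => h3 h4.1)).2 h2, h3⟩
  have hT0' : Tight M A₀ ({k}ᶜ) T' :=
    tight_mono ((tight_of_change hA.1 hA₀.1 hT' hc' subset_rfl).1 hT') (subset_univ _)
  obtain ⟨l₀, hl₀, hyl₀⟩ := hy₀
  obtain ⟨n, hn⟩ := exists_walk hA₀.1 hT0 hT0' hTT' hx hl₀ hyl₀ hyT hR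
  have hxU : x ∉ ⋃ l, A l := by
    intro h1
    obtain ⟨l, hl⟩ := mem_iUnion.1 h1
    exact hxA l hl
  have hxA₀ : ∀ l, x ∉ A₀ l := by
    intro l hl
    apply hxU
    rw [← hU]
    exact mem_iUnion.2 ⟨l, hl⟩
  have hxy' : x ≠ y := by
    rintro rfl
    exact hxU hy
  obtain ⟨A₁, hA₁, hU₁, hk₁, hc₁⟩ := augment n A₀ x y hA₀ hxA₀ hxy' hn
  refine ⟨A₀, A₁, hA₀, hA₁, hU, ?_, ?_, hc, fun l => ?_⟩
  · rw [hU₁, hU]
  · exact (hk₁ k (by simp)).symm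
  · rw [hc₁ l, hc l]

end Pool.Agent.WL
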