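import Pool.Agent.WL.Multi
import Pool.Agent.WD.Step

/-!
# WL/Step: the main step for partitions

PROOF. Copy the proof of `WD.step` (`WD/Step.lean`; `WD.exists_arc` can be used) and replace
`multi_exchange` by `multi_share h hM k (s + 1) A (M.closure ∅) x y` for some `k : Fin q` (`hq`). It gives `A₀, A₁`.
`IsPart M S B A₀`: only the union of the `A l` enters besides `IsFam` (the disjointness from `B` follows
from the disjointness of `B` and `⋃ A l = ⋃ A₀ l`). `B' := (B \ range x) ∪ range y`, `A' := A₁`, `l := k`.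
-/

set_option autoImplicit false

namespace Pool.Agent.WL

open Set Pool.Agent.WD

variable {α : Type*} {M : Matroid α}

theorem step {q m : ℕ} (hq : 0 < q) (h : S1 α q m) [M.RankFinite] (hM : M.eRank ≤ (m : ℕ∞))
    {S B C : Set α} {A D : Fin q → Set α} (hP : IsPart M S B A) (hQ : IsPart M S C D)
    (hBC : B ≠ C) :
    ∃ (A₀ : Fin q → Set α) (B' : Set α) (A' : Fin q → Set α) (l : Fin q), IsPart M S B A₀ ∧
      IsPart M S B' A' ∧ A' l = A₀ l ∧ (B' \ C).ncard < (B \ C).ncard := by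
  have hBfin : B.Finite := hP.1.finite
  have hfinBC : (B \ C).Finite := hBfin.subset sdiff_subset
  have : Finite ↥(B \ C) := hfinBC.to_subtype
  have hne : (B \ C).Nonempty := by
    rw [sdiff_nonempty]
    intro hsub
    exact hBC (hP.1.eq_of_subset_isBase hQ.1 hsub)
  have : Nonempty ↥(B \ C) := hne.to_subtype
  obtain ⟨s, f, hfinj, hR, hchord⟩ := exists_chordless_cycle
    (X := ↥(B \ C)) (fun x x' => ∃ y ∈ C \ B,
      (∀ F, Tight M A univ F → (x : α) ∈ F → y ∈ F) ∧
      M.IsBase (insert y (B \ {(x' : α)}))) (fun x => exists_arc hP hQ x)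
  choose y hyCB hforce hybase using hR
  set x : Fin (s + 1) → α := fun i => (f i : α) with hxdef
  have hxB : ∀ i, x i ∈ B := fun i => (f i).2.1
  have hxC : ∀ i, x i ∉ C := fun i => (f i).2.2
  have hxinj : Function.Injective x := fun i j hij => hfinj (Subtype.ext hij)
  have hyC : ∀ i, y i ∈ C := fun i => (hyCB i).1
  have hyB : ∀ i, y i ∉ B := fun i => (hyCB i).2
  have hbase' : M.IsBase ((B \ range x) ∪ range y) := by
    refine base_of_chordless hP.1 hBfin x y hxinj hxB hyB hybase ?_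
    intro i j hij
    exact hchord i j ⟨y i, hyCB i, hforce i, hij⟩
  have hxA : ∀ i l, x i ∉ A l := fun i l h => (disjoint_left.mp (hP.2.2.1 l)) (hxB i) h
  have hyA : ∀ i, y i ∈ ⋃ l, A l := by
    intro i
    have hS : y i ∈ S := by
      rw [← hQ.2.2.2]
      exact Or.inl (hyC i)
    rw [← hP.2.2.2] at hS
    exact hS.resolve_left (hyB i)
  have hxE : ∀ i, x i ∈ M.E := fun i => hP.1.subset_ground (hxB i)
  have hnotloop : ∀ {Z : Set α}, M.IsBase Z → ∀ {z : α}, z ∈ Z → z ∉ M.closure ∅ := by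
    intro Z hZ z hz hzl
    have h1 := hZ.indep.notMem_closure_sdiff_of_mem hz
    exact h1 (M.closure_subset_closure (empty_subset _) hzl)
  have hTloops : Tight M A univ (M.closure ∅) := tight_loops
  have hloopsF : ∀ F, Tight M A univ F → M.closure ∅ ⊆ F := by
    intro F hF
    have := hF.1.closure
    calc M.closure ∅ ⊆ M.closure F := M.closure_subset_closure (empty_subset _)
      _ = F := this
  obtain ⟨A₀, A', hA₀, hA', hU₀, hU, hsame, -, -⟩ := multi_share (M := M) h hM ⟨0, hq⟩ (s + 1) A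
    (M.closure ∅) x y hP.2.1 hTloops hxE hxA hyA (fun i => hnotloop hP.1 (hxB i))
    (fun i => hnotloop hQ.1 (hyC i))
    (fun i F hF _ hxF => hforce i F hF hxF)
    (by
      intro i j hij
      by_contra hcon
      push Not at hcon
      apply hij
      have h3 := hchord i (j + 1) ⟨y j, hyCB j, fun F hF hxF => hcon F hF (hloopsF F hF) hxF,
        hybase j⟩
      exact (add_right_cancel h3).symm)
  refine ⟨A₀, (B \ range x) ∪ range y, A', ⟨0, hq⟩, ⟨hP.1, hA₀, ?_, ?_⟩, ⟨hbase', hA', ?_, ?_⟩,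
    hsame.symm, ?_⟩
  · intro l'
    rw [disjoint_left]
    intro z hz hz'
    have hz'' : z ∈ ⋃ l, A₀ l := mem_iUnion.mpr ⟨l', hz'⟩
    rw [hU₀] at hz''
    obtain ⟨l'', hl''⟩ := mem_iUnion.mp hz''
    exact (disjoint_left.mp (hP.2.2.1 l'')) hz hl''
  · rw [hU₀, hP.2.2.2]
  · intro l'
    rw [disjoint_left]
    intro z hz hz'
    have hz'' : z ∈ ⋃ l, A' l := mem_iUnion.mpr ⟨l', hz'⟩
    rw [hU] at hz''
    rcases hz with ⟨hzB, hzx⟩ | ⟨i, rfl⟩
    · rcases hz'' with ⟨hzA, _⟩ | hzx'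
      · obtain ⟨l'', hl''⟩ := mem_iUnion.mp hzA
        exact (disjoint_left.mp (hP.2.2.1 l'')) hzB hl''
      · exact hzx hzx'
    · rcases hz'' with ⟨_, hzy⟩ | ⟨j, hj⟩
      · exact hzy (mem_range_self i)
      · exact hyB i (hj ▸ hxB j)
  · rw [hU, ← hP.2.2.2]
    ext z
    simp only [mem_union, mem_sdiff]
    constructor
    · rintro ((⟨h, _⟩ | ⟨i, rfl⟩) | (⟨h, _⟩ | ⟨i, rfl⟩))
      · exact Or.inl h
      · exact Or.inr (hyA i)
      · exact Or.inr h
      · exact Or.inl (hxB i)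
    · rintro (h | h)
      · by_cases hz : z ∈ range x
        · exact Or.inr (Or.inr hz)
        · exact Or.inl (Or.inl ⟨h, hz⟩)
      · by_cases hz : z ∈ range y
        · exact Or.inl (Or.inr hz)
        · exact Or.inr (Or.inl ⟨h, hz⟩)
  · apply ncard_lt_ncard _ hfinBC
    refine ⟨?_, ?_⟩
    · rintro z ⟨⟨hzB, _⟩ | ⟨i, rfl⟩, hzC⟩
      · exact ⟨hzB, hzC⟩
      · exact absurd (hyC i) hzC
    · intro hsub
      have h7 := hsub (⟨hxB 0, hxC 0⟩ : x 0 ∈ B \ C)
      rcases h7.1 with ⟨_, h8⟩ | ⟨i, hi⟩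
      · exact h8 (mem_range_self 0)
      · exact hyB i (hi ▸ hxB 0)

end Pool.Agent.WL
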